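import Pool.Agent.W_2cf66e_h68.Defs68
import Pool.Agent.W_2cf66e_h46.QAa
import Pool.Agent.W_2cf66e_h46.QG

/-!
# Convex quadratic volumes: the grid of cubes and the Lipschitz bound (helper35)
-/

set_option autoImplicit false

noncomputable section

open MeasureTheory MvPolynomial

namespace Pool.Agent.CQ68

open Pool.Agent.QVol (box rbox QG_mem QG_meas box_eq_rbox cont_aeval bdd_box mem_box_abs)

namespace S35

/-- Polynomials are Lipschitz on the cube. -/
theorem lip {ι : Type} (p : MvPolynomial ι ℚ) :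
    ∃ L : ℚ, 0 ≤ L ∧ ∀ (y z : ι → ℝ) (δ : ℝ), 0 ≤ δ → y ∈ box ι → z ∈ box ι →
      (∀ i, |y i - z i| ≤ δ) → |(aeval y p : ℝ) - aeval z p| ≤ L * δ := by
  induction p using MvPolynomial.induction_on with
  | C a =>
    refine ⟨0, le_rfl, fun y z δ hδ _ _ _ => ?_⟩
    simp
  | add p q hp hq =>
    obtain ⟨L₁, h1, h2⟩ := hp
    obtain ⟨L₂, h3, h4⟩ := hq
    refine ⟨L₁ + L₂, by positivity, fun y z δ hδ hy hz h => ?_⟩
    have e1 := h2 y z δ hδ hy hz h
    have e2 := h4 y z δ hδ hy hz h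
    rw [map_add, map_add]
    push_cast
    calc |(aeval y p : ℝ) + aeval y q - (aeval z p + aeval z q)|
        = |((aeval y p : ℝ) - aeval z p) + (aeval y q - aeval z q)| := by ring_nf
      _ ≤ |(aeval y p : ℝ) - aeval z p| + |(aeval y q : ℝ) - aeval z q| := abs_add_le _ _
      _ ≤ (L₁ + L₂) * δ := by linarith
  | mul_X p i hp =>
    obtain ⟨L, h1, h2⟩ := hp
    obtain ⟨B, hB0, hB⟩ := bdd_box p
    obtain ⟨M, hM⟩ := exists_rat_gt B
    have hM0 : (0 : ℝ) ≤ M := hB0.trans hM.le
    refine ⟨L + M, by have : (0 : ℚ) ≤ M := by exact_mod_cast hM0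
                      positivity, fun y z δ hδ hy hz h => ?_⟩
    have e1 := h2 y z δ hδ hy hz h
    have e2 := hB z hz
    have e3 := mem_box_abs hy i
    have e4 := h i
    rw [map_mul, map_mul, aeval_X, aeval_X]
    push_cast
    calc |(aeval y p : ℝ) * y i - aeval z p * z i|
        = |((aeval y p : ℝ) - aeval z p) * y i + aeval z p * (y i - z i)| := by ring_nf
      _ ≤ |((aeval y p : ℝ) - aeval z p) * y i| + |(aeval z p : ℝ) * (y i - z i)| :=
          abs_add_le _ _
      _ = |(aeval y p : ℝ) - aeval z p| * |y i| + |(aeval z p : ℝ)| * |y i - z i| := by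
          rw [abs_mul, abs_mul]
      _ ≤ (L * δ) * 1 + M * δ := by
          have hL : (0 : ℝ) ≤ L := by exact_mod_cast h1
          gcongr
          exact e2.trans hM.le
      _ = (L + M) * δ := by ring

/-- The cut points. -/
def cut (N : ℕ) (j : ℕ) : ℚ := -1 + 2 * j / N

theorem cut_mono (N : ℕ) : Monotone fun j : ℕ => ((cut N j : ℚ) : ℝ) := by
  intro a b hab
  have h : (a : ℚ) ≤ b := by exact_mod_cast hab
  have : cut N a ≤ cut N b := by
    unfold cut
    have : 2 * (a : ℚ) / N ≤ 2 * b / N := by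
      apply div_le_div_of_nonneg_right _ (by positivity)
      linarith
    linarith
  show ((cut N a : ℚ) : ℝ) ≤ cut N b
  exact_mod_cast this

theorem cut_zero (N : ℕ) : cut N 0 = -1 := by simp [cut]

theorem cut_last (N : ℕ) (hN : 0 < N) : cut N N = 1 := by
  have : (N : ℚ) ≠ 0 := by positivity
  unfold cut
  field_simp
  norm_num

theorem cut_succ (N : ℕ) (j : ℕ) : cut N (j + 1) = cut N j + 2 / N := by
  unfold cut
  push_cast
  ring

theorem Ioc_union (N : ℕ) (hN : 0 < N) :
    ⋃ j : Fin N, Set.Ioc ((cut N j : ℚ) : ℝ) (cut N (j + 1)) = Set.Ioc (-1) 1 := by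
  have h := (cut_mono N).biUnion_Ico_Ioc_map_succ 0 N
  rw [cut_zero, cut_last N hN] at h
  push_cast at h
  rw [← h]
  ext t
  simp only [Set.mem_iUnion]
  constructor
  · rintro ⟨j, hj⟩
    exact ⟨j, ⟨Nat.zero_le _, j.2⟩, hj⟩
  · rintro ⟨j, hj, h⟩
    exact ⟨⟨j, hj.2⟩, h⟩

/-- The half open cells. -/
def cell {ι : Type} (N : ℕ) (k : ι → Fin N) : Set (ι → ℝ) :=
  Set.univ.pi fun i => Set.Ioc ((cut N (k i) : ℚ) : ℝ) (cut N (k i + 1))

theorem cell_union {ι : Type} (N : ℕ) (hN : 0 < N) :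
    ⋃ k : ι → Fin N, cell N k = Set.univ.pi fun _ : ι => Set.Ioc (-1 : ℝ) 1 := by
  unfold cell
  rw [Set.iUnion_univ_pi (fun (_ : ι) (j : Fin N) =>
    Set.Ioc ((cut N j : ℚ) : ℝ) (cut N (j + 1)))]
  rw [Ioc_union N hN]

theorem cell_disj {ι : Type} (N : ℕ) :
    Pairwise (Function.onFun Disjoint fun k : ι → Fin N => cell N k) := by
  intro k k' hk
  obtain ⟨i, hi⟩ := Function.ne_iff.1 hk
  rw [Function.onFun, Set.disjoint_left]
  intro y hy hy'
  have h1 := hy i (Set.mem_univ i)
  have h2 := hy' i (Set.mem_univ i)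
  have h := (cut_mono N).pairwise_disjoint_on_Ioc_succ (i := (k i : ℕ)) (j := (k' i : ℕ))
    (fun h => hi (Fin.ext h))
  exact Set.disjoint_left.1 h h1 h2

/-- The integral over the cube is the sum of the integrals over the `N^n` cubes of side
`2/N`. -/
theorem grid {ι : Type} [Fintype ι] [DecidableEq ι] (N : ℕ) (hN : 0 < N) (f : (ι → ℝ) → ℝ)
    (hf : Continuous f) :
    ∫ y in box ι, f y = ∑ k : ι → Fin N,
      ∫ y in rbox (fun i => cut N (k i)) (fun i => cut N (k i + 1)), f y := by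
  have h1 : ∀ k : ι → Fin N, (cell N k : Set (ι → ℝ)) =ᵐ[volume]
      rbox (fun i => cut N (k i)) (fun i => cut N (k i + 1)) := by
    intro k
    rw [volume_pi]
    exact Measure.univ_pi_Ioc_ae_eq_Icc
  have h2 : (Set.univ.pi fun _ : ι => Set.Ioc (-1 : ℝ) 1) =ᵐ[volume] box ι := by
    rw [volume_pi]
    exact Measure.univ_pi_Ioc_ae_eq_Icc
  rw [← setIntegral_congr_set h2, ← cell_union N hN, integral_iUnion_fintype]
  · exact Finset.sum_congr rfl fun k _ => setIntegral_congr_set (h1 k)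
  · exact fun k => MeasurableSet.univ_pi fun i => measurableSet_Ioc
  · exact cell_disj N
  · intro k
    have : IntegrableOn f (rbox (fun i => cut N (k i)) (fun i => cut N (k i + 1))) :=
      hf.continuousOn.integrableOn_compact isCompact_Icc
    exact this.congr_set_ae (h1 k)

theorem grid_vol {ι : Type} [Fintype ι] [DecidableEq ι] (N : ℕ) (hN : 0 < N) :
    ∑ k : ι → Fin N, volume.real (rbox (fun i => cut N (k i)) (fun i => cut N (k i + 1))) =
      volume.real (box ι) := by
  have h := grid (ι := ι) N hN (fun _ => 1) continuous_const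
  simpa using h.symm

end S35

end Pool.Agent.CQ68
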