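import Mathlib

/-!
# CQ: integrals of powers of positive parts (helper68)
-/

set_option autoImplicit false

open MeasureTheory

namespace Pool.Agent.CQ68

theorem pint0 (x : ℝ) (n : ℕ) (hn : 1 ≤ n) :
    ∫ w in (0 : ℝ)..x, max w 0 ^ n = max x 0 ^ (n + 1) / (n + 1) := by
  rcases le_total 0 x with hx | hx
  · have h : ∫ w in (0 : ℝ)..x, max w 0 ^ n = ∫ w in (0 : ℝ)..x, w ^ n := by
      refine intervalIntegral.integral_congr fun w hw => ?_
      rw [Set.uIcc_of_le hx] at hw
      simp only [max_eq_left hw.1]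
    rw [h, integral_pow, max_eq_left hx]
    simp
  · have h : ∫ w in (0 : ℝ)..x, max w 0 ^ n = ∫ w in (0 : ℝ)..x, (0 : ℝ) := by
      refine intervalIntegral.integral_congr fun w hw => ?_
      rw [Set.uIcc_of_ge hx] at hw
      simp only [max_eq_right hw.2]
      exact zero_pow (by omega)
    rw [h, max_eq_right hx]
    simp

theorem pint (a b : ℝ) (n : ℕ) (hn : 1 ≤ n) :
    ∫ w in a..b, max w 0 ^ n = (max b 0 ^ (n + 1) - max a 0 ^ (n + 1)) / (n + 1) := by
  have hc : Continuous fun w : ℝ => max w 0 ^ n := (continuous_id.max continuous_const).pow n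
  have hi : ∀ x y : ℝ, IntervalIntegrable (fun w : ℝ => max w 0 ^ n) volume x y := fun x y =>
    hc.intervalIntegrable x y
  rw [← intervalIntegral.integral_interval_sub_left (hi 0 b) (hi 0 a), pint0 b n hn, pint0 a n hn]
  ring

/-- Upper end moving: the lower noise. -/
theorem pint_lo (c a b : ℝ) (n : ℕ) (hn : 1 ≤ n) :
    ∫ w in a..b, max (w - c) 0 ^ n =
      (max (b - c) 0 ^ (n + 1) - max (a - c) 0 ^ (n + 1)) / (n + 1) := by
  rw [intervalIntegral.integral_comp_sub_right (fun x => max x 0 ^ n) c, pint _ _ n hn]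

theorem pint_hi (t a b : ℝ) (n : ℕ) (hn : 1 ≤ n) :
    ∫ u in a..b, max (t - u) 0 ^ n =
      (max (t - a) 0 ^ (n + 1) - max (t - b) 0 ^ (n + 1)) / (n + 1) := by
  rw [intervalIntegral.integral_comp_sub_left (fun x => max x 0 ^ n) t, pint _ _ n hn]

/-- Scaling of the positive part. -/
theorem max_mul_pow (a x : ℝ) (ha : 0 ≤ a) (n : ℕ) : max (a * x) 0 ^ n = a ^ n * max x 0 ^ n := by
  rw [← mul_pow, mul_max_of_nonneg _ _ ha, mul_zero]

end Pool.Agent.CQ68
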