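import Pool.Agent.W_2cf66e_h68.Slab85
import Pool.Agent.W_2cf66e_h59.CA59
import Pool.Agent.W_2cf66e_h68.Pint68

/-!
# CQ: weights by slack coordinates (helper68)
-/

set_option autoImplicit false

noncomputable section

open MeasureTheory MvPolynomial

namespace Pool.Agent.CQ68

theorem deg_X_add {τ : Type} (g : τ) (a : ℚ) : (X g + C a : MvPolynomial τ ℚ).totalDegree ≤ 1 := by
  refine (totalDegree_add _ _).trans (max_le ?_ ?_)
  · rw [totalDegree_X]
  · rw [totalDegree_C]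
    exact Nat.zero_le 1

theorem deg_C' {τ : Type} (a : ℚ) : (C a : MvPolynomial τ ℚ).totalDegree ≤ 1 := by
  rw [totalDegree_C]
  exact Nat.zero_le 1

theorem weight (τ : Type) [Fintype τ] (g : τ) (n : ℕ) :
    ∃ (τ' : Type) (_ : Fintype τ') (j : τ → τ'), ∀ (Z₀ : Set (τ → ℝ)), Nice Z₀ →
      (∀ z ∈ Z₀, |z g| ≤ 1) → ∃ Z' : Set (τ' → ℝ), Nice Z' ∧
      (∀ z ∈ Z', (fun i => z (j i)) ∈ Z₀) ∧ volume.real Z' ≤ 4 ^ n * volume.real Z₀ ∧
      ∀ Ψ : (τ → ℝ) → ℝ, Continuous Ψ →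
        ∫ z in Z', Ψ (fun i => z (j i)) = ∫ z in Z₀, Ψ z * (z g + 3) ^ n := by
  induction n with
  | zero =>
    refine ⟨τ, inferInstance, id, fun Z₀ hZ hg => ⟨Z₀, hZ, fun z hz => hz, by simp, fun Ψ _ => ?_⟩⟩
    simp
  | succ n ih =>
    obtain ⟨τ', _, j, H⟩ := ih
    refine ⟨τ' ⊕ Unit, inferInstance, fun i => Sum.inl (j i), fun Z₀ hZ hg => ?_⟩
    obtain ⟨Z', hN, hin, hv, hI⟩ := H Z₀ hZ hg
    have hg' : ∀ z ∈ Z', |z (j g)| ≤ 1 := fun z hz => hg _ (hin z hz)
    have e1 : ∀ z : τ' → ℝ, (aeval z (C 0 : MvPolynomial τ' ℚ) : ℝ) = 0 := fun z => by simp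
    have e2 : ∀ z : τ' → ℝ, (aeval z (X (j g) + C 3 : MvPolynomial τ' ℚ) : ℝ) = z (j g) + 3 :=
      fun z => by simp
    have hle : ∀ z ∈ Z', (aeval z (C 0 : MvPolynomial τ' ℚ) : ℝ) ≤
        aeval z (X (j g) + C 3 : MvPolynomial τ' ℚ) := by
      intro z hz
      rw [e1, e2]
      have := (abs_le.1 (hg' z hz)).1
      linarith
    refine ⟨slab Z' (C 0) (X (j g) + C 3),
      slab_nice hN _ _ hle (cs_ge (deg_C' 0)) (cs_le (deg_X_add _ _)), fun z hz => hin _ hz.1,
      ?_, ?_⟩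
    · have h1 := slab_vol hN.cpt (C 0) (X (j g) + C 3) hle 4 (by
        intro z hz
        rw [e1, e2]
        have := (abs_le.1 (hg' z hz)).2
        linarith)
      calc volume.real (slab Z' (C 0) (X (j g) + C 3)) ≤ 4 * volume.real Z' := h1
        _ ≤ 4 * (4 ^ n * volume.real Z₀) := by gcongr
        _ = 4 ^ (n + 1) * volume.real Z₀ := by ring
    · intro Ψ hΨ
      have hc : Continuous fun z : τ' ⊕ Unit → ℝ => Ψ fun i => z (Sum.inl (j i)) :=
        hΨ.comp (continuous_pi fun i => continuous_apply _)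
      rw [slab_int hN.cpt _ _ hle _ hc]
      have h2 : ∀ z : τ' → ℝ, (∫ _ in (aeval z (C 0 : MvPolynomial τ' ℚ) : ℝ)..(aeval z
          (X (j g) + C 3 : MvPolynomial τ' ℚ)), Ψ fun i => z (j i)) =
          Ψ (fun i => z (j i)) * (z (j g) + 3) := by
        intro z
        rw [intervalIntegral.integral_const, e1, e2, smul_eq_mul]
        ring
      have h3 := hI (fun z => Ψ z * (z g + 3)) (hΨ.mul ((continuous_apply g).add continuous_const))
      calc ∫ z in Z', (∫ w in (aeval z (C 0 : MvPolynomial τ' ℚ) : ℝ)..(aeval z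
            (X (j g) + C 3 : MvPolynomial τ' ℚ)),
            Ψ fun i => (Sum.elim z (fun _ => w) : τ' ⊕ Unit → ℝ) (Sum.inl (j i)))
          = ∫ z in Z', Ψ (fun i => z (j i)) * (z (j g) + 3) := by
            refine integral_congr_ae (Filter.Eventually.of_forall fun z => ?_)
            exact h2 z
        _ = ∫ z in Z₀, Ψ z * (z g + 3) * (z g + 3) ^ n := h3
        _ = ∫ z in Z₀, Ψ z * (z g + 3) ^ (n + 1) := by
            refine integral_congr_ae (Filter.Eventually.of_forall fun z => ?_)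
            simp only
            ring

end Pool.Agent.CQ68
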