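import Pool.Agent.W_2cf66e_h59.SB59
import Pool.Agent.W_2cf66e_h68.Weight68
import Pool.Agent.W_2cf66e_h68.Grid35

/-!
# Convex quadratic volumes: one cube, all weights (helper35)
-/

set_option autoImplicit false

noncomputable section

open MeasureTheory MvPolynomial

namespace Pool.Agent.CQ68

open Pool.Agent.QVol (box rbox QG_mem QG_meas box_eq_rbox cont_aeval bdd_box mem_box_abs rat_int)

namespace S35

theorem nice_rbox {ι : Type} [Fintype ι] (l u : ι → ℚ) : Nice (rbox l u) :=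
  ⟨CS.rbox l u, isCompact_Icc, fun f => rat_int f l u⟩

/-- All the weights `(y_i + 3)^(d_i)` as volumes. -/
theorem weights {ι : Type} [Fintype ι] (d : ι → ℕ) (s : Finset ι) :
    ∃ (τ : Type) (_ : Fintype τ) (e : ι → τ), ∀ l u : ι → ℚ, rbox l u ⊆ box ι →
      ∃ Z : Set (τ → ℝ), Nice Z ∧ (∀ z ∈ Z, (fun i => z (e i)) ∈ rbox l u) ∧
        volume.real Z ≤ 4 ^ (∑ i ∈ s, d i) * volume.real (rbox l u) ∧
        ∀ Ψ : (ι → ℝ) → ℝ, Continuous Ψ → ∫ z in Z, Ψ (fun i => z (e i)) =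
          ∫ y in rbox l u, Ψ y * ∏ i ∈ s, (y i + 3) ^ d i := by
  classical
  induction s using Finset.induction_on with
  | empty =>
    refine ⟨ι, inferInstance, id, fun l u _ => ⟨rbox l u, nice_rbox l u, fun z hz => hz, ?_, ?_⟩⟩
    · simp
    · intro Ψ _
      simp
  | insert g s hg ih =>
    obtain ⟨τ, _, e, h⟩ := ih
    obtain ⟨τ', _, j, h'⟩ := weight τ (e g) (d g)
    refine ⟨τ', inferInstance, fun i => j (e i), fun l u hlu => ?_⟩
    obtain ⟨Z, h1, h2, h3, h4⟩ := h l u hlu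
    obtain ⟨Z', k1, k2, k3, k4⟩ := h' Z h1 fun z hz => mem_box_abs (hlu (h2 z hz)) g
    refine ⟨Z', k1, fun z hz => h2 _ (k2 z hz), ?_, fun Ψ hΨ => ?_⟩
    · rw [Finset.sum_insert hg, pow_add, mul_assoc]
      exact k3.trans (mul_le_mul_of_nonneg_left h3 (by positivity))
    · have hc : Continuous fun z : τ → ℝ => Ψ (fun i => z (e i)) :=
        hΨ.comp (continuous_pi fun i => continuous_apply (e i))
      have e1 := k4 _ hc
      have hc2 : Continuous fun y : ι → ℝ => Ψ y * (y g + 3) ^ d g :=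
        hΨ.mul (((continuous_apply g).add continuous_const).pow _)
      have e2 := h4 _ hc2
      rw [e1, e2]
      refine integral_congr_ae (Filter.Eventually.of_forall fun y => ?_)
      beta_reduce
      rw [Finset.prod_insert hg]
      ring

/-- The conclusion of `all_weights` for a weight function `W`. -/
def AW {ι : Type} [Fintype ι] (p : MvPolynomial ι ℚ) (m : ℕ) (L : ℚ) (W : (ι → ℝ) → ℝ) : Prop :=
  ∃ Λ : ℝ, 0 ≤ Λ ∧ ∀ (l u : ι → ℚ) (d : ℚ), 0 < d → d ≤ 1 →
    (∀ i, -1 ≤ l i ∧ l i ≤ u i ∧ u i ≤ l i + d ∧ u i ≤ 1) → |eval l p| ≤ L * d →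
    ∃ (c : ℚ) (y : ℝ), 0 ≤ y ∧ CBlock y (Λ * d ^ 2 * volume.real (rbox l u)) ∧
      ∫ z in rbox l u, W z * max (aeval z p) 0 ^ (m + 2) = c - y

theorem AW_mono {ι : Type} [Fintype ι] (p : MvPolynomial ι ℚ) (m : ℕ) (hp : Gad p m) (L : ℚ)
    (d : ι → ℕ) (a : ℚ) : AW p m L fun y => a * ∏ i, (y i + 3) ^ d i := by
  obtain ⟨A, hA0, hA⟩ := hp (max L 0) (le_max_right _ _)
  obtain ⟨τ, _, e, hw⟩ := weights d Finset.univ
  obtain ⟨τ', _, j, k, α, _, σ, hjk, hcard, hσ, hG⟩ := hA τ e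
  set K : ℝ := 4 ^ (∑ i, d i) with hK
  set B : ℚ := max L 0 + A with hB
  have hB0 : 0 ≤ B := add_nonneg (le_max_right _ _) hA0
  have hB0' : (0 : ℝ) ≤ B := by exact_mod_cast hB0
  have hA0' : (0 : ℝ) ≤ A := by exact_mod_cast hA0
  set g : ℚ := a * ((m + 2).factorial / 2) with hg
  refine ⟨A * (2 * |(g : ℝ)| * (A * K) * B ^ 2), by positivity, fun l u δ h0 h1 hlu hL => ?_⟩
  have h0' : (0 : ℝ) < δ := by exact_mod_cast h0
  have hsub : rbox l u ⊆ box ι := by
    intro y hy
    rw [box_eq_rbox, QG_mem]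
    rw [QG_mem] at hy
    intro i
    have e1 : (-1 : ℝ) ≤ l i := by exact_mod_cast (hlu i).1
    have e2 : (u i : ℝ) ≤ 1 := by exact_mod_cast (hlu i).2.2.2
    push_cast
    exact ⟨e1.trans (hy i).1, (hy i).2.trans e2⟩
  obtain ⟨Z₀, hZ0, hZ1, hZ2, hZ3⟩ := hw l u hsub
  have hl : ∀ i, |l i| ≤ 1 := by
    intro i
    rw [abs_le]
    exact ⟨(hlu i).1, (hlu i).2.1.trans (hlu i).2.2.2⟩
  have hon : OnC l δ e Z₀ := by
    intro z hz i
    have hz' := hZ1 z hz
    refine ⟨mem_box_abs (hsub hz') i, ?_⟩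
    have e1 := (QG_mem l u _).1 hz' i
    have e2 : (u i : ℝ) ≤ l i + δ := by exact_mod_cast (hlu i).2.2.1
    have e3 := e1.1
    have e4 := e1.2
    rw [abs_le]
    constructor <;> linarith
  obtain ⟨Z, hN, hk, hv, hint⟩ := hG l δ hl h0 h1 Z₀ hZ0 hon
  have hL' : |((eval l p : ℚ) : ℝ)| ≤ (max L 0 : ℚ) * δ := by
    have : |eval l p| ≤ max L 0 * δ :=
      hL.trans (mul_le_mul_of_nonneg_right (le_max_left _ _) h0.le)
    exact_mod_cast this
  have hI := hint (fun _ => 1) (fun _ => 0) continuous_const continuous_const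
    (fun z _ => by have := (abs_le.1 hL').2; linarith) 2 (by norm_num)
  have hBk : ∀ a', ∀ z ∈ Z a', |z k| ≤ ((B * δ : ℚ) : ℝ) := by
    intro a' z hz
    have e1 := (hk a' z hz).2
    have e2 := abs_le.1 e1
    have e3 := abs_le.1 hL'
    rw [abs_le]
    push_cast [hB]
    push_cast at e3
    constructor <;> nlinarith [e2.1, e2.2, e3.1, e3.2]
  have hsb := fun a' => sign_block (hN a') k (B * δ) (mul_nonneg hB0 h0.le) (hBk a') (g * σ a')
  choose c y hy hblk hc using hsb
  refine ⟨∑ a', c a', ∑ a', y a', Finset.sum_nonneg fun a' _ => hy a', ?_, ?_⟩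
  · refine (CBlock.sum Finset.univ y _ (fun a' _ => hblk a')).mono ?_
    have hterm : ∀ a', 2 * |((g * σ a' : ℚ) : ℝ)| * volume.real (Z a') * ((B * δ : ℚ) : ℝ) ^ 2 ≤
        2 * |(g : ℝ)| * (A * (K * volume.real (rbox l u))) * (B * δ) ^ 2 := by
      intro a'
      have e1 : |((g * σ a' : ℚ) : ℝ)| ≤ |(g : ℝ)| := by
        have : |g * σ a'| ≤ |g| := by
          rw [abs_mul]
          exact mul_le_of_le_one_right (abs_nonneg _) (hσ a')
        exact_mod_cast this
      have e2 : volume.real (Z a') ≤ A * (K * volume.real (rbox l u)) :=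
        (hv a').trans (mul_le_mul_of_nonneg_left hZ2 hA0')
      push_cast
      push_cast at e1
      gcongr
    refine (Finset.sum_le_sum fun a' _ => hterm a').trans ?_
    rw [Finset.sum_const, Finset.card_univ, nsmul_eq_mul]
    calc (Fintype.card α : ℝ) *
          (2 * |(g : ℝ)| * (A * (K * volume.real (rbox l u))) * (B * δ) ^ 2)
        ≤ A * (2 * |(g : ℝ)| * (A * (K * volume.real (rbox l u))) * (B * δ) ^ 2) := by
          gcongr
      _ = _ := by ring
  · have h1' : ∑ a', ((g * σ a' : ℚ) : ℝ) * ∫ z in Z a', max (z k) 0 ^ 2 =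
        ∑ a', ((c a' : ℝ) - y a') := Finset.sum_congr rfl fun a' _ => hc a'
    rw [Finset.sum_sub_distrib] at h1'
    push_cast
    rw [← h1']
    have h2' : ∑ a', ((g * σ a' : ℚ) : ℝ) * ∫ z in Z a', max (z k) 0 ^ 2 =
        g * ∑ a', (σ a' : ℝ) * ∫ z in Z a', 1 * max (z k - 0) 0 ^ 2 := by
      rw [Finset.mul_sum]
      refine Finset.sum_congr rfl fun a' _ => ?_
      simp only [one_mul, sub_zero]
      push_cast
      ring
    rw [h2', hI]
    have hc : Continuous fun y : ι → ℝ => max (aeval y p : ℝ) 0 ^ (m + 2) :=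
      ((cont_aeval p).max continuous_const).pow _
    have h3' := hZ3 _ hc
    simp only [one_mul, sub_zero]
    rw [show (2 + m) = m + 2 from by ring, h3']
    have hf : ((m + 2).factorial : ℝ) ≠ 0 := by positivity
    have h4' : ∫ y in rbox l u, (a : ℝ) * (∏ i, (y i + 3) ^ d i) * max (aeval y p) 0 ^ (m + 2) =
        a * ∫ y in rbox l u, max (aeval y p : ℝ) 0 ^ (m + 2) * ∏ i, (y i + 3) ^ d i := by
      rw [← integral_const_mul]
      refine integral_congr_ae (Filter.Eventually.of_forall fun y => ?_)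
      beta_reduce
      ring
    rw [h4', hg]
    push_cast
    rw [show (Nat.factorial 2 : ℝ) = 2 from by norm_num [Nat.factorial]]
    field_simp

theorem AW_shift {ι : Type} [Fintype ι] (p : MvPolynomial ι ℚ) (m : ℕ) (hp : Gad p m) (L : ℚ)
    (H : MvPolynomial ι ℚ) : AW p m L fun y => aeval (fun i => y i + 3) H := by
  induction H using MvPolynomial.induction_on' with
  | monomial d a =>
    have h := AW_mono p m hp L (fun i => d i) a
    have e : (fun y : ι → ℝ => (aeval (fun i => y i + 3) (monomial d a) : ℝ)) =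
        fun y => (a : ℝ) * ∏ i, (y i + 3) ^ d i := by
      funext y
      rw [aeval_monomial, Finsupp.prod_fintype _ _ (fun i => pow_zero _)]
      rfl
    rw [e]
    exact h
  | add H₁ H₂ h1 h2 =>
    obtain ⟨Λ₁, a1, a2⟩ := h1
    obtain ⟨Λ₂, b1, b2⟩ := h2
    refine ⟨Λ₁ + Λ₂, by positivity, fun l u d h0 h1 hlu hL => ?_⟩
    obtain ⟨c₁, y₁, c1, c2, c3⟩ := a2 l u d h0 h1 hlu hL
    obtain ⟨c₂, y₂, d1, d2, d3⟩ := b2 l u d h0 h1 hlu hL
    refine ⟨c₁ + c₂, y₁ + y₂, by positivity, ?_, ?_⟩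
    · have := c2.add d2
      refine this.mono (le_of_eq ?_)
      ring
    · have hi : ∀ H : MvPolynomial ι ℚ, IntegrableOn (fun y : ι → ℝ =>
          (aeval (fun i => y i + 3) H : ℝ) * max (aeval y p) 0 ^ (m + 2)) (rbox l u) := by
        intro H
        have hc : Continuous fun y : ι → ℝ =>
            (aeval (fun i => y i + 3) H : ℝ) * max (aeval y p) 0 ^ (m + 2) := by
          refine Continuous.mul ?_ (((cont_aeval p).max continuous_const).pow _)
          exact (cont_aeval H).comp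
            (continuous_pi fun i => (continuous_apply i).add continuous_const)
        exact hc.continuousOn.integrableOn_compact isCompact_Icc
      simp only [map_add, add_mul]
      rw [integral_add (hi H₁) (hi H₂), c3, d3]
      push_cast
      ring

end S35

/-- One cube, every weight. -/
theorem all_weights {ι : Type} [Fintype ι] (p H : MvPolynomial ι ℚ) (m : ℕ) (hp : Gad p m) :
    ∀ L : ℚ, ∃ Λ : ℝ, 0 ≤ Λ ∧ ∀ (l u : ι → ℚ) (d : ℚ), 0 < d → d ≤ 1 →
      (∀ i, -1 ≤ l i ∧ l i ≤ u i ∧ u i ≤ l i + d ∧ u i ≤ 1) → |eval l p| ≤ L * d →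
      ∃ (c : ℚ) (y : ℝ), 0 ≤ y ∧ CBlock y (Λ * d ^ 2 * volume.real (rbox l u)) ∧
        ∫ y in rbox l u, aeval y H * max (aeval y p) 0 ^ (m + 2) = c - y := by
  intro L
  have h := S35.AW_shift p m hp L (bind₁ (fun i => X i - C 3) H)
  have e : (fun y : ι → ℝ => (aeval (fun i => y i + 3) (bind₁ (fun i => X i - C 3) H) : ℝ)) =
      fun y => aeval y H := by
    funext y
    rw [aeval_bind₁]
    congr 1
    congr 1
    funext i
    simp
  rw [e] at h
  exact h

end Pool.Agent.CQ68
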