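import Pool.Agent.W_2cf66e_h68.Stmt68
import Pool.Agent.W_2cf66e_h46.Defs

/-!
# MP_2cf66e_nt (periods), convex quadratic volumes: definitions (helper68)

Paper proof: table `proofs`, row 700. `y` are the base coordinates (in the cube `box ι`), new
coordinates are added one at a time (`slab`).
-/

set_option autoImplicit false

noncomputable section

open MeasureTheory MvPolynomial

namespace Pool.Agent.CQ68

open Pool.Agent.QVol (box rbox Apow)

/-- A set given by finitely many inequalities `0 ≤ q`, `q` affine or affine minus the square of a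
sum or difference of two coordinates. Such a set is convex. -/
def CS {ι : Type} (S : Set (ι → ℝ)) : Prop :=
  ∃ (m : ℕ) (q : Fin m → MvPolynomial ι ℚ), (∀ i, IsCQ (q i)) ∧
    S = {z : ι → ℝ | ∀ i, 0 ≤ aeval z (q i)}

/-- All polynomial moments are rational. -/
def Mom {ι : Type} [Fintype ι] (Z : Set (ι → ℝ)) : Prop :=
  ∀ f : MvPolynomial ι ℚ, ∃ q : ℚ, ∫ z in Z, (aeval z f : ℝ) = q

/-- Nice sets: convex quadratic, compact, with rational moments. -/
structure Nice {ι : Type} [Fintype ι] (Z : Set (ι → ℝ)) : Prop where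
  cs : CS Z
  cpt : IsCompact Z
  mom : Mom Z

/-- One more coordinate `w` with `φ z ≤ w ≤ ψ z`. -/
def slab {τ : Type} (Z : Set (τ → ℝ)) (φ ψ : MvPolynomial τ ℚ) : Set (τ ⊕ Unit → ℝ) :=
  {z | (fun i => z (Sum.inl i)) ∈ Z ∧ (aeval (fun i => z (Sum.inl i)) φ : ℝ) ≤ z (Sum.inr ()) ∧
    z (Sum.inr ()) ≤ (aeval (fun i => z (Sum.inl i)) ψ : ℝ)}

/-- A block: `x` is the mean of a maximum of affine functions over a compact convex quadratic set
of rational volume, and this maximum is at most `β`. -/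
def CBlock (x β : ℝ) : Prop :=
  ∃ (κ : Type) (_ : Fintype κ) (Z : Set (κ → ℝ)) (α : Type) (_ : Fintype α) (_ : Nonempty α)
    (θ : α → MvPolynomial κ ℚ) (v : ℚ),
    CS Z ∧ IsCompact Z ∧ (∀ a, (θ a).totalDegree ≤ 1) ∧ 0 < v ∧
    volume Z = ENNReal.ofReal v ∧ (∫ z in Z, ⨆ a, aeval z (θ a)) = v * x ∧
    ∀ z ∈ Z, ∀ a, aeval z (θ a) ≤ β

/-- The base coordinates `z (e i)` lie in the cube and within `δ` of the rational point `l`. -/
def OnC {ι τ : Type} (l : ι → ℚ) (δ : ℚ) (e : ι → τ) (Z : Set (τ → ℝ)) : Prop :=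
  ∀ z ∈ Z, ∀ i, |z (e i)| ≤ 1 ∧ |z (e i) - (l i : ℝ)| ≤ δ

/-- The gadget for the polynomial `p` with `m` one-sided noises, depth `ρ`, over an arbitrary nice
base set: finitely many signed nice sets over the base with a tracked coordinate `k` near `p`. The
index types and signs do not depend on the base set. -/
def Gad {ι : Type} [Fintype ι] (p : MvPolynomial ι ℚ) (m : ℕ) : Prop :=
  ∀ ρ : ℚ, 0 ≤ ρ → ∃ A : ℚ, 0 ≤ A ∧ ∀ (τ : Type) [Fintype τ] (e : ι → τ),
    ∃ (τ' : Type) (_ : Fintype τ') (j : τ → τ') (k : τ') (α : Type) (_ : Fintype α) (σ : α → ℚ),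
      (∀ i, j i ≠ k) ∧ (Fintype.card α : ℝ) ≤ A ∧ (∀ a, |σ a| ≤ 1) ∧
      ∀ (l : ι → ℚ) (δ : ℚ), (∀ i, |l i| ≤ 1) → 0 < δ → δ ≤ 1 →
      ∀ (Z₀ : Set (τ → ℝ)), Nice Z₀ → OnC l δ e Z₀ → ∃ Z : α → Set (τ' → ℝ),
        (∀ a, Nice (Z a)) ∧
        (∀ a, ∀ z ∈ Z a, (fun i => z (j i)) ∈ Z₀ ∧ |z k - ((eval l p : ℚ) : ℝ)| ≤ A * δ) ∧
        (∀ a, volume.real (Z a) ≤ A * volume.real Z₀) ∧
        ∀ (Ψ c : (τ → ℝ) → ℝ), Continuous Ψ → Continuous c →
          (∀ z ∈ Z₀, ((eval l p : ℚ) : ℝ) - ρ * δ ≤ c z) → ∀ n : ℕ, 1 ≤ n →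
          ∑ a, (σ a : ℝ) * ∫ z in Z a, Ψ (fun i => z (j i)) *
              max (z k - c (fun i => z (j i))) 0 ^ n =
            (n.factorial : ℝ) / (n + m).factorial *
              ∫ z in Z₀, Ψ z * max (aeval (fun i => z (e i)) p - c z) 0 ^ (n + m)

end Pool.Agent.CQ68
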