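import Pool.Agent.W_2cf66e_h68.GadMul3

/-!
# CQ: every polynomial has gadgets (helper68)
-/

set_option autoImplicit false

noncomputable section

open MeasureTheory MvPolynomial

namespace Pool.Agent.CQ68

/-- Every polynomial has gadgets for all large `m`. -/
theorem gad_all {ι : Type} [Fintype ι] (p : MvPolynomial ι ℚ) :
    ∃ m₀ : ℕ, ∀ m : ℕ, m₀ ≤ m → Gad p m := by
  have key : ∀ q : MvPolynomial ι ℚ, ∃ m₀ : ℕ,
      Gad (aeval (fun j : ι => (X j + 3 : MvPolynomial ι ℚ)) q) m₀ := by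
    intro q
    induction q using MvPolynomial.induction_on with
    | C a => exact ⟨1, by rw [aeval_C]; exact gad_C a⟩
    | add p q hp hq =>
      obtain ⟨m₁, h₁⟩ := hp
      obtain ⟨m₂, h₂⟩ := hq
      exact ⟨m₁ + m₂ + 1, by rw [map_add]; exact gad_add h₁ h₂⟩
    | mul_X p j hp =>
      obtain ⟨m₁, h₁⟩ := hp
      exact ⟨m₁ + 2, by rw [map_mul, aeval_X]; exact gad_mul h₁ j⟩
  obtain ⟨m₀, h₀⟩ := key (aeval (fun j : ι => (X j - 3 : MvPolynomial ι ℚ)) p)
  have e : aeval (fun j : ι => (X j + 3 : MvPolynomial ι ℚ))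
      (aeval (fun j : ι => (X j - 3 : MvPolynomial ι ℚ)) p) = p := by
    have h1 : ((aeval (fun j : ι => (X j + 3 : MvPolynomial ι ℚ))).comp
        (aeval (fun j : ι => (X j - 3 : MvPolynomial ι ℚ)))) = AlgHom.id ℚ _ := by
      apply MvPolynomial.algHom_ext
      intro j
      rw [AlgHom.comp_apply, aeval_X, map_sub, aeval_X, AlgHom.id_apply]
      have h3 : aeval (fun j : ι => (X j + 3 : MvPolynomial ι ℚ)) (3 : MvPolynomial ι ℚ) = 3 :=
        map_ofNat _ 3
      rw [h3]
      ring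
    have h2 := DFunLike.congr_fun h1 p
    rw [AlgHom.comp_apply, AlgHom.id_apply] at h2
    exact h2
  rw [e] at h₀
  refine ⟨m₀, fun m hm => ?_⟩
  induction m, hm using Nat.le_induction with
  | base => exact h₀
  | succ m hm ih => exact gad_pad ih

end Pool.Agent.CQ68
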