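import Pool.Agent.W_2cf66e_h68.Soc68
import Pool.Agent.W_2cf66e_h65.ESA

/-!
# CQ: sets given by 2 x 2 linear matrix inequalities are semialgebraic (helper68)
-/

set_option autoImplicit false

noncomputable section

open MeasureTheory MvPolynomial

namespace Pool.Agent.CQ68

theorem psd_three (a b c : ℝ) : (!![a, b; b, c] : Matrix (Fin 2) (Fin 2) ℝ).PosSemidef ↔
    0 ≤ a ∧ 0 ≤ c ∧ 0 ≤ a * c - b ^ 2 := by
  rw [psd_two]
  constructor
  · intro h
    have ha : 0 ≤ a := by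
      have := h 1 0
      nlinarith
    have hc : 0 ≤ c := by
      have := h 0 1
      nlinarith
    refine ⟨ha, hc, ?_⟩
    rcases ha.eq_or_lt with ha0 | ha0
    · have h1 := h 1 (-b)
      have h2 := h (c + 1) (-b)
      rw [← ha0] at h1 h2 ⊢
      nlinarith
    · have h1 := h b (-a)
      by_contra h2
      push Not at h2
      have h3 : a * (a * c - b ^ 2) < 0 := mul_neg_of_pos_of_neg ha0 h2
      nlinarith
  · rintro ⟨ha, hc, h⟩ x y
    rcases ha.eq_or_lt with ha0 | ha0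
    · have hb : b = 0 := by
        rw [← ha0] at h
        have : b ^ 2 ≤ 0 := by linarith
        nlinarith [sq_nonneg b, pow_eq_zero_iff (two_ne_zero) |>.1 (le_antisymm this (sq_nonneg b))]
      rw [← ha0, hb]
      have := mul_nonneg hc (sq_nonneg y)
      linarith
    · by_contra h2
      push Not at h2
      have h3 : a * (a * x ^ 2 + 2 * b * x * y + c * y ^ 2) < 0 := mul_neg_of_pos_of_neg ha0 h2
      nlinarith [sq_nonneg (a * x + b * y), mul_nonneg h (sq_nonneg y)]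

/-- The entry of a pencil as a polynomial. -/
def ent {N : ℕ} (a : ℚ) (b : Fin N → ℚ) : MvPolynomial (Fin N) ℚ := C a + ∑ k, X k * C (b k)

theorem ent_ev {N : ℕ} (a : ℚ) (b : Fin N → ℚ) (z : Fin N → ℝ) :
    (aeval z (ent a b) : ℝ) = a + ∑ k, z k * b k := by
  simp [ent]

theorem lmi_psd {N : ℕ} (A : Matrix (Fin 2) (Fin 2) ℚ) (B : Fin N → Matrix (Fin 2) (Fin 2) ℚ)
    (hA : A.IsSymm) (hB : ∀ k, (B k).IsSymm) (z : Fin N → ℝ) :
    (A.map (Rat.cast : ℚ → ℝ) + ∑ k, z k • (B k).map (Rat.cast : ℚ → ℝ)).PosSemidef ↔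
      0 ≤ (aeval z (ent (A 0 0) fun k => B k 0 0) : ℝ) ∧
      0 ≤ (aeval z (ent (A 1 1) fun k => B k 1 1) : ℝ) ∧
      0 ≤ (aeval z (ent (A 0 0) (fun k => B k 0 0) * ent (A 1 1) (fun k => B k 1 1) -
        ent (A 0 1) (fun k => B k 0 1) ^ 2) : ℝ) := by
  have e : A.map (Rat.cast : ℚ → ℝ) + ∑ k, z k • (B k).map (Rat.cast : ℚ → ℝ) =
      !![(aeval z (ent (A 0 0) fun k => B k 0 0) : ℝ), (aeval z (ent (A 0 1) fun k => B k 0 1) : ℝ);
        (aeval z (ent (A 0 1) fun k => B k 0 1) : ℝ),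
        (aeval z (ent (A 1 1) fun k => B k 1 1) : ℝ)] := by
    have hA' : A 1 0 = A 0 1 := hA.apply 0 1
    have hB' : ∀ k, B k 1 0 = B k 0 1 := fun k => (hB k).apply 0 1
    ext i j
    fin_cases i <;> fin_cases j <;> simp [Matrix.sum_apply, ent_ev, hA', hB']
  rw [e, psd_three, map_sub, map_mul, map_pow]

theorem lmi_sa {N m : ℕ} (A : Fin m → Matrix (Fin 2) (Fin 2) ℚ)
    (B : Fin m → Fin N → Matrix (Fin 2) (Fin 2) ℚ)
    (hA : ∀ i, (A i).IsSymm) (hB : ∀ i k, (B i k).IsSymm) :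
    Pool.Agent.CVol.IsSA {z : Fin N → ℝ | ∀ i, ((A i).map (Rat.cast : ℚ → ℝ) +
      ∑ k, z k • (B i k).map (Rat.cast : ℚ → ℝ)).PosSemidef} := by
  have e : {z : Fin N → ℝ | ∀ i, ((A i).map (Rat.cast : ℚ → ℝ) +
      ∑ k, z k • (B i k).map (Rat.cast : ℚ → ℝ)).PosSemidef} =
      ⋂ i, {z : Fin N → ℝ | ((A i).map (Rat.cast : ℚ → ℝ) +
        ∑ k, z k • (B i k).map (Rat.cast : ℚ → ℝ)).PosSemidef} := by
    ext z
    simp
  rw [e]
  refine Pool.Agent.CVol.IsSA.iInter _ fun i => ?_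
  have e2 : {z : Fin N → ℝ | ((A i).map (Rat.cast : ℚ → ℝ) +
        ∑ k, z k • (B i k).map (Rat.cast : ℚ → ℝ)).PosSemidef} =
      {z : Fin N → ℝ | 0 ≤ (aeval z (ent (A i 0 0) fun k => B i k 0 0) : ℝ)} ∩
      ({z : Fin N → ℝ | 0 ≤ (aeval z (ent (A i 1 1) fun k => B i k 1 1) : ℝ)} ∩
      {z : Fin N → ℝ | 0 ≤ (aeval z (ent (A i 0 0) (fun k => B i k 0 0) *
        ent (A i 1 1) (fun k => B i k 1 1) - ent (A i 0 1) (fun k => B i k 0 1) ^ 2) : ℝ)}) := by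
    ext z
    exact lmi_psd (A i) (B i) (hA i) (hB i) z
  rw [e2]
  exact (Pool.Agent.CVol.IsSA.nonneg _).inter ((Pool.Agent.CVol.IsSA.nonneg _).inter
    (Pool.Agent.CVol.IsSA.nonneg _))

end Pool.Agent.CQ68
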