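import Pool.Agent.W_2cf66e_h68.Sub35
import Pool.Agent.W_2cf66e_h68.GadAll68
import Pool.Agent.W_2cf66e_h68.SocSA68
import Pool.Agent.W_2cf66e_h59.CF59
import Pool.Agent.W_2cf66e_h59.CFa59
import Pool.Agent.W_2cf66e_h59.CFb59
import Pool.Agent.W_2cf66e_h46.QJf
import Pool.Agent.W_2cf66e_h65.ISet

/-!
# CQ: positive periods are the volumes of compact convex quadratic sets (helper68)
-/

set_option autoImplicit false

noncomputable section

open MeasureTheory MvPolynomial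

namespace Pool.Agent.CQ68

open Pool.Agent.QVol (box rbox Apow)

/-- A positive `Apow` number is the volume of a compact convex quadratic set. -/
theorem apow_cvol {x : ℝ} (hx : 0 < x) (h : Apow x) :
    ∃ (κ : Type) (_ : Fintype κ) (S : Set (κ → ℝ)), CS S ∧ IsCompact S ∧
      volume S = ENNReal.ofReal x := by
  obtain ⟨ι, _, J, P, hP⟩ := h
  choose m0 hm0 using fun j => gad_all (P j)
  set s : ℕ := ∑ j, m0 j with hs
  have hle : ∀ j, m0 j ≤ 2 * s := fun j =>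
    (Finset.single_le_sum (f := m0) (fun j _ => Nat.zero_le _) (Finset.mem_univ j)).trans (by omega)
  have hK : 2 * s + 2 = 2 * (s + 1) := by ring
  obtain ⟨H, hH⟩ := hP (s + 1) (by omega)
  choose Λ hΛ hb using fun j => box_all (P j) (H j) (2 * s) (hm0 j _ (hle j))
  have hS : 0 ≤ ∑ j, Λ j := Finset.sum_nonneg fun j _ => hΛ j
  obtain ⟨N, hN⟩ := exists_nat_ge (max 2 ((∑ j, Λ j) / x))
  have hN2 : 2 ≤ N := by exact_mod_cast (le_max_left _ _).trans hN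
  have hN3 : (∑ j, Λ j) / x ≤ N := (le_max_right _ _).trans hN
  have hNr : (2 : ℝ) ≤ N := by exact_mod_cast hN2
  choose c y hy hB he using fun j => hb j N hN2
  have hxe : x = ((∑ j, c j : ℚ) : ℝ) - ∑ j, y j := by
    rw [hH]
    push_cast
    rw [← Finset.sum_sub_distrib]
    refine Finset.sum_congr rfl fun j _ => ?_
    rw [← he j, hK]
  have hβ : ∑ j, Λ j / (N : ℝ) ^ 2 ≤ ((∑ j, c j : ℚ) : ℝ) := by
    have h1 : ∑ j, Λ j / (N : ℝ) ^ 2 = (∑ j, Λ j) / (N : ℝ) ^ 2 := by rw [Finset.sum_div]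
    have h2 : ∑ j, Λ j ≤ x * N := by
      have := (div_le_iff₀ hx).1 hN3
      linarith
    have h3 : (∑ j, Λ j) / (N : ℝ) ^ 2 ≤ x := by
      rw [div_le_iff₀ (by positivity)]
      nlinarith
    have h4 : 0 ≤ ∑ j, y j := Finset.sum_nonneg fun j _ => hy j
    linarith
  obtain ⟨κ, i1, S, hS1, hS2, hv⟩ := cblock_final
    (CBlock.sum Finset.univ y (fun j => Λ j / (N : ℝ) ^ 2) fun j _ => hB j) (∑ j, c j) hβ
  refine ⟨κ, i1, S, hS1, hS2, ?_⟩
  rw [hv]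
  congr 1
  exact hxe.symm

/-- The theorem. -/
theorem period_iff_cq (x : ℝ) (hx : 0 < x) : Pool.Agent.CVol.IsPeriod x ↔
    ∃ (N m : ℕ) (q : Fin m → MvPolynomial (Fin N) ℚ), (∀ i, IsCQ (q i)) ∧
      Convex ℝ {z : Fin N → ℝ | ∀ i, 0 ≤ (aeval z (q i) : ℝ)} ∧
      IsCompact {z : Fin N → ℝ | ∀ i, 0 ≤ (aeval z (q i) : ℝ)} ∧
      volume {z : Fin N → ℝ | ∀ i, 0 ≤ (aeval z (q i) : ℝ)} = ENNReal.ofReal x := by
  constructor
  · intro h
    obtain ⟨κ, i1, S, hS, hc, hv⟩ := apow_cvol hx (Pool.Agent.QVol.period_apow h)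
    obtain ⟨N, m, q, h1, h2, h3⟩ := creindex S hS hc
    exact ⟨N, m, q, h1, CS.convex ⟨m, q, h1, rfl⟩, h2, h3.trans hv⟩
  · rintro ⟨N, m, q, h1, _, _, h3⟩
    have hS : CS {z : Fin N → ℝ | ∀ i, 0 ≤ (aeval z (q i) : ℝ)} := ⟨m, q, h1, rfl⟩
    exact Pool.Agent.CVol.period_of_volume hS.isSA x hx h3

/-- The same with finitely many 2 x 2 linear matrix inequalities. -/
theorem period_iff_soc (x : ℝ) (hx : 0 < x) : Pool.Agent.CVol.IsPeriod x ↔
    ∃ (N m : ℕ) (A : Fin m → Matrix (Fin 2) (Fin 2) ℚ)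
      (B : Fin m → Fin N → Matrix (Fin 2) (Fin 2) ℚ),
      (∀ i, (A i).IsSymm) ∧ (∀ i k, (B i k).IsSymm) ∧
      IsCompact {z : Fin N → ℝ | ∀ i, ((A i).map (Rat.cast : ℚ → ℝ) +
        ∑ k, z k • (B i k).map (Rat.cast : ℚ → ℝ)).PosSemidef} ∧
      volume {z : Fin N → ℝ | ∀ i, ((A i).map (Rat.cast : ℚ → ℝ) +
        ∑ k, z k • (B i k).map (Rat.cast : ℚ → ℝ)).PosSemidef} = ENNReal.ofReal x := by
  constructor
  · intro h
    obtain ⟨N, m, q, hq, _, hc, hv⟩ := (period_iff_cq x hx).1 h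
    choose A B hA hB hz using fun i => cq_lmi (q i) (hq i)
    have e : {z : Fin N → ℝ | ∀ i, 0 ≤ (aeval z (q i) : ℝ)} =
        {z : Fin N → ℝ | ∀ i, ((A i).map (Rat.cast : ℚ → ℝ) +
          ∑ k, z k • (B i k).map (Rat.cast : ℚ → ℝ)).PosSemidef} := by
      ext z
      exact forall_congr' fun i => hz i z
    rw [e] at hc hv
    exact ⟨N, m, A, B, hA, hB, hc, hv⟩
  · rintro ⟨N, m, A, B, hA, hB, _, hv⟩
    exact Pool.Agent.CVol.period_of_volume (lmi_sa A B hA hB) x hx hv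

end Pool.Agent.CQ68
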