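import Pool.Agent.W_2cf66e_h68.Defs68

/-!
# CQ: bounds for polynomials on the cube (helper68)
-/

set_option autoImplicit false

noncomputable section

open MeasureTheory MvPolynomial

namespace Pool.Agent.CQ68

theorem bd_eval {ι : Type} (p : MvPolynomial ι ℚ) :
    ∃ M : ℚ, 0 ≤ M ∧ ∀ l : ι → ℚ, (∀ i, |l i| ≤ 1) → |eval l p| ≤ M := by
  induction p using MvPolynomial.induction_on with
  | C a => exact ⟨|a|, abs_nonneg _, fun l _ => by rw [eval_C]⟩
  | add p q hp hq =>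
    obtain ⟨M, hM, h⟩ := hp
    obtain ⟨N, hN, k⟩ := hq
    refine ⟨M + N, by positivity, fun l hl => ?_⟩
    rw [map_add]
    exact (abs_add_le _ _).trans (add_le_add (h l hl) (k l hl))
  | mul_X p i hp =>
    obtain ⟨M, hM, h⟩ := hp
    refine ⟨M, hM, fun l hl => ?_⟩
    rw [map_mul, eval_X, abs_mul]
    calc |eval l p| * |l i| ≤ M * 1 := mul_le_mul (h l hl) (hl i) (abs_nonneg _) hM
      _ = M := mul_one M

theorem lip_eval {ι : Type} (p : MvPolynomial ι ℚ) :
    ∃ L : ℚ, 0 ≤ L ∧ ∀ (l : ι → ℚ) (δ : ℚ) (y : ι → ℝ), (∀ i, |l i| ≤ 1) →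
      (∀ i, |y i| ≤ 1 ∧ |y i - (l i : ℝ)| ≤ δ) → 0 ≤ δ →
      |(aeval y p : ℝ) - ((eval l p : ℚ) : ℝ)| ≤ L * δ := by
  induction p using MvPolynomial.induction_on with
  | C a => exact ⟨0, le_refl _, fun l δ y _ _ _ => by simp⟩
  | add p q hp hq =>
    obtain ⟨L, hL, h⟩ := hp
    obtain ⟨N, hN, k⟩ := hq
    refine ⟨L + N, by positivity, fun l δ y hl hy hδ => ?_⟩
    have h1 := h l δ y hl hy hδ
    have h2 := k l δ y hl hy hδ
    rw [map_add, map_add]
    push_cast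
    calc |(aeval y p : ℝ) + aeval y q - (((eval l p : ℚ) : ℝ) + ((eval l q : ℚ) : ℝ))|
        = |((aeval y p : ℝ) - ((eval l p : ℚ) : ℝ)) + (aeval y q - ((eval l q : ℚ) : ℝ))| := by
          congr 1
          ring
      _ ≤ _ := abs_add_le _ _
      _ ≤ L * δ + N * δ := add_le_add h1 h2
      _ = (L + N) * δ := by ring
  | mul_X p i hp =>
    obtain ⟨L, hL, h⟩ := hp
    obtain ⟨M, hM, k⟩ := bd_eval p
    refine ⟨L + M, by positivity, fun l δ y hl hy hδ => ?_⟩
    have h1 := h l δ y hl hy hδ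
    have h2 : |((eval l p : ℚ) : ℝ)| ≤ M := by exact_mod_cast k l hl
    have hδr : (0 : ℝ) ≤ δ := by exact_mod_cast hδ
    have hMr : (0 : ℝ) ≤ M := by exact_mod_cast hM
    have hLr : (0 : ℝ) ≤ L := by exact_mod_cast hL
    rw [map_mul, map_mul, aeval_X, eval_X]
    push_cast
    calc |(aeval y p : ℝ) * y i - ((eval l p : ℚ) : ℝ) * (l i : ℝ)|
        = |((aeval y p : ℝ) - ((eval l p : ℚ) : ℝ)) * y i +
            ((eval l p : ℚ) : ℝ) * (y i - (l i : ℝ))| := by
          congr 1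
          ring
      _ ≤ |((aeval y p : ℝ) - ((eval l p : ℚ) : ℝ)) * y i| +
            |((eval l p : ℚ) : ℝ) * (y i - (l i : ℝ))| := abs_add_le _ _
      _ = |(aeval y p : ℝ) - ((eval l p : ℚ) : ℝ)| * |y i| +
            |((eval l p : ℚ) : ℝ)| * |y i - (l i : ℝ)| := by rw [abs_mul, abs_mul]
      _ ≤ L * δ * 1 + M * δ := by
          have h3 := (hy i).1
          have h4 := (hy i).2
          gcongr
      _ = (L + M) * δ := by ring

end Pool.Agent.CQ68
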