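import Pool.Agent.W_2cf66e_h68.GadC68
import Pool.Agent.W_2cf66e_h68.Lip68

/-!
# CQ: gadgets for sums (helper68)
-/

set_option autoImplicit false

noncomputable section

open MeasureTheory MvPolynomial

namespace Pool.Agent.CQ68

theorem cont_aev {ι : Type} (p : MvPolynomial ι ℚ) :
    Continuous fun y : ι → ℝ => (aeval y p : ℝ) := by
  have h : (fun y : ι → ℝ => (aeval y p : ℝ)) =
      fun y => ((MvPolynomial.map (algebraMap ℚ ℝ) p).eval y) := by
    funext y
    rw [MvPolynomial.eval_map]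
    rfl
  rw [h]
  exact MvPolynomial.continuous_eval _

theorem gad_add {ι : Type} [Fintype ι] {p q : MvPolynomial ι ℚ} {m₁ m₂ : ℕ}
    (hp : Gad p m₁) (hq : Gad q m₂) : Gad (p + q) (m₁ + m₂ + 1) := by
  intro ρ hρ
  obtain ⟨L, hL, hLip⟩ := lip_eval q
  obtain ⟨A, hA, HA⟩ := hp (ρ + L) (by positivity)
  obtain ⟨B, hB, HB⟩ := hq (ρ + A) (by positivity)
  have hAr : (0 : ℝ) ≤ A := by exact_mod_cast hA
  have hBr : (0 : ℝ) ≤ B := by exact_mod_cast hB
  have hρr : (0 : ℝ) ≤ ρ := by exact_mod_cast hρ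
  have hLr : (0 : ℝ) ≤ L := by exact_mod_cast hL
  set W : ℚ := 2 * (A + B) + ρ + 1 with hW
  have hW0 : (0 : ℚ) ≤ W := by positivity
  have hWr : (0 : ℝ) ≤ W := by exact_mod_cast hW0
  refine ⟨A * B + W * (A * B) + W, by positivity, fun τ _ e => ?_⟩
  obtain ⟨τ', _, j, k, α, _, σ, hjk, hcard, hσ, HA⟩ := HA τ e
  obtain ⟨τ'', _, j', k', β, _, σ', hjk', hcard', hσ', HB⟩ := HB τ' (fun i => j (e i))
  refine ⟨τ'' ⊕ Unit, inferInstance, fun i => Sum.inl (j' (j i)), Sum.inr (), α × β, inferInstance,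
    fun c => σ c.1 * σ' c.2, fun i => by simp, ?_, ?_, fun l δ hl hδ hδ1 Z₀ hN hO => ?_⟩
  · rw [Fintype.card_prod]
    push_cast
    have h1 : (Fintype.card α : ℝ) * (Fintype.card β : ℝ) ≤ A * B :=
      mul_le_mul hcard hcard' (by positivity) hAr
    have h2 : (0 : ℝ) ≤ W * (A * B) := by positivity
    linarith
  · intro c
    rw [abs_mul]
    calc |σ c.1| * |σ' c.2| ≤ 1 * 1 := mul_le_mul (hσ _) (hσ' _) (abs_nonneg _) zero_le_one
      _ = 1 := one_mul 1
  have hδr : (0 : ℝ) < δ := by exact_mod_cast hδ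
  have hδ1r : (δ : ℝ) ≤ 1 := by exact_mod_cast hδ1
  obtain ⟨Z, hZN, hZ, hV, hF⟩ := HA l δ hl hδ hδ1 Z₀ hN hO
  have hO' : ∀ a, OnC l δ (fun i => j (e i)) (Z a) := fun a z hz i => hO _ (hZ a z hz).1 i
  choose Y hYN hY hVY hG using fun a => HB l δ hl hδ hδ1 (Z a) (hZN a) (hO' a)
  set P : ℚ := eval l p with hP
  set Q : ℚ := eval l q with hQ
  have hPQ : eval l (p + q) = P + Q := map_add _ _ _
  set lo : ℚ := P + Q - (A + B + ρ + 1) * δ with hlo
  have e1 : ∀ z : τ'' → ℝ, (aeval z (C lo : MvPolynomial τ'' ℚ) : ℝ) =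
      P + Q - (A + B + ρ + 1) * δ := fun z => by simp [hlo]
  have e2 : ∀ z : τ'' → ℝ, (aeval z (X (j' k) + X k' : MvPolynomial τ'' ℚ) : ℝ) =
      z (j' k) + z k' := fun z => by simp
  have hk1 : ∀ a b, ∀ z ∈ Y a b, |z (j' k) - P| ≤ A * δ := fun a b z hz =>
    (hZ a _ (hY a b z hz).1).2
  have hk2 : ∀ a b, ∀ z ∈ Y a b, |z k' - Q| ≤ B * δ := fun a b z hz => (hY a b z hz).2
  have hle : ∀ a b, ∀ z ∈ Y a b, (aeval z (C lo : MvPolynomial τ'' ℚ) : ℝ) ≤
      aeval z (X (j' k) + X k' : MvPolynomial τ'' ℚ) := by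
    intro a b z hz
    rw [e1, e2]
    have h1 := (abs_le.1 (hk1 a b z hz)).1
    have h2 := (abs_le.1 (hk2 a b z hz)).1
    nlinarith
  have hX : (X (j' k) + X k' : MvPolynomial τ'' ℚ).totalDegree ≤ 1 := by
    refine (totalDegree_add _ _).trans (max_le ?_ ?_) <;> rw [totalDegree_X]
  refine ⟨fun c => slab (Y c.1 c.2) (C lo) (X (j' k) + X k'),
    fun c => slab_nice (hYN c.1 c.2) _ _ (hle c.1 c.2) (cs_ge (deg_C' _)) (cs_le hX),
    fun c z hz => ⟨(hZ c.1 _ (hY c.1 c.2 _ hz.1).1).1, ?_⟩, fun c => ?_, ?_⟩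
  · have h1 := hz.2.1
    have h2 := hz.2.2
    rw [e1] at h1
    rw [e2] at h2
    have h3 := (abs_le.1 (hk1 c.1 c.2 _ hz.1)).2
    have h4 := (abs_le.1 (hk2 c.1 c.2 _ hz.1)).2
    rw [hPQ, abs_le]
    have h5 : 0 ≤ (A : ℝ) * B * δ := by positivity
    have h6 : 0 ≤ (W : ℝ) * (A * B) * δ := by positivity
    have h7 : (W : ℝ) = 2 * (A + B) + ρ + 1 := by rw [hW]; push_cast; ring
    push_cast
    constructor
    · nlinarith
    · nlinarith
  · refine (slab_vol (hYN c.1 c.2).cpt _ _ (hle c.1 c.2) W fun z hz => ?_).trans ?_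
    · rw [e1, e2]
      have h3 := (abs_le.1 (hk1 c.1 c.2 _ hz)).2
      have h4 := (abs_le.1 (hk2 c.1 c.2 _ hz)).2
      have h7 : (W : ℝ) = 2 * (A + B) + ρ + 1 := by rw [hW]; push_cast; ring
      nlinarith
    · have h1 := hV c.1
      have h2 := hVY c.1 c.2
      have h3 : 0 ≤ volume.real Z₀ := measureReal_nonneg
      have h4 : volume.real (Y c.1 c.2) ≤ B * (A * volume.real Z₀) :=
        h2.trans (by gcongr)
      calc (W : ℝ) * volume.real (Y c.1 c.2) ≤ W * (B * (A * volume.real Z₀)) := by gcongr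
        _ = W * (A * B) * volume.real Z₀ := by ring
        _ ≤ ((A * B + W * (A * B) + W : ℚ) : ℝ) * volume.real Z₀ := by
            gcongr
            push_cast
            have h5 : 0 ≤ (A : ℝ) * B := by positivity
            linarith
  · intro Ψ c hΨ hc hcl n hn
    rw [hPQ] at hcl
    push_cast at hcl
    have hcj : Continuous fun (z : τ' → ℝ) (i : τ) => z (j i) :=
      continuous_pi fun i => continuous_apply _
    have hcj' : Continuous fun (z : τ'' → ℝ) (i : τ) => z (j' (j i)) :=
      continuous_pi fun i => continuous_apply _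
    have h1 : ∀ a b, ∫ z in slab (Y a b) (C lo) (X (j' k) + X k'),
        Ψ (fun i => z (Sum.inl (j' (j i)))) *
          max (z (Sum.inr ()) - c (fun i => z (Sum.inl (j' (j i))))) 0 ^ n =
        1 / ((n : ℝ) + 1) * ∫ z in Y a b, Ψ (fun i => z (j' (j i))) *
          max (z k' - (c (fun i => z (j' (j i))) - z (j' k))) 0 ^ (n + 1) := by
      intro a b
      have := last_slab' (hYN a b).cs.meas (hYN a b).cpt (C lo) (X (j' k) + X k') (hle a b)
        (fun z => Ψ fun i => z (j' (j i))) (fun z => c fun i => z (j' (j i)))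
        (hΨ.comp hcj') (hc.comp hcj') n hn
        (fun z hz => by
          rw [e1]
          have := hcl _ (hZ a _ (hY a b z hz).1).1
          nlinarith)
      rw [this]
      congr 1
      refine integral_congr_ae (Filter.Eventually.of_forall fun z => ?_)
      simp only [e2]
      congr 3
      ring
    have h2 : ∀ a, ∑ b, (σ' b : ℝ) * ∫ z in Y a b, Ψ (fun i => z (j' (j i))) *
          max (z k' - (c (fun i => z (j' (j i))) - z (j' k))) 0 ^ (n + 1) =
        ((n + 1).factorial : ℝ) / ((n + 1) + m₂).factorial *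
          ∫ z in Z a, Ψ (fun i => z (j i)) *
            max (z k - (c (fun i => z (j i)) - aeval (fun i => z (j (e i))) q)) 0 ^
              ((n + 1) + m₂) := by
      intro a
      have := hG a (fun z => Ψ fun i => z (j i)) (fun z => c (fun i => z (j i)) - z k)
        (hΨ.comp hcj) ((hc.comp hcj).sub (continuous_apply k)) (fun z hz => by
          have h3 := hcl _ (hZ a z hz).1
          have h4 := (abs_le.1 (hZ a z hz).2).2
          push_cast
          nlinarith) (n + 1) (by omega)
      rw [this]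
      congr 1
      refine integral_congr_ae (Filter.Eventually.of_forall fun z => ?_)
      simp only
      congr 3
      ring
    have hce : Continuous fun z : τ → ℝ => (aeval (fun i => z (e i)) q : ℝ) :=
      (cont_aev q).comp (continuous_pi fun i => continuous_apply _)
    have h3 := hF Ψ (fun z => c z - aeval (fun i => z (e i)) q) hΨ (hc.sub hce) (fun z hz => by
        have h4 := hcl z hz
        have h5 := (abs_le.1 (hLip l δ (fun i => z (e i)) hl (fun i => hO z hz i) hδ.le)).2
        push_cast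
        nlinarith) (n + 1 + m₂) (by omega)
    rw [Fintype.sum_prod_type]
    simp only [h1]
    calc ∑ a, ∑ b, ((σ a * σ' b : ℚ) : ℝ) * (1 / ((n : ℝ) + 1) *
          ∫ z in Y a b, Ψ (fun i => z (j' (j i))) *
            max (z k' - (c (fun i => z (j' (j i))) - z (j' k))) 0 ^ (n + 1))
        = 1 / ((n : ℝ) + 1) * ∑ a, (σ a : ℝ) * ∑ b, (σ' b : ℝ) *
          ∫ z in Y a b, Ψ (fun i => z (j' (j i))) *
            max (z k' - (c (fun i => z (j' (j i))) - z (j' k))) 0 ^ (n + 1) := by
          simp only [Finset.mul_sum]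
          refine Finset.sum_congr rfl fun a _ => Finset.sum_congr rfl fun b _ => ?_
          push_cast
          ring
      _ = 1 / ((n : ℝ) + 1) * (((n + 1).factorial : ℝ) / ((n + 1) + m₂).factorial *
          ∑ a, (σ a : ℝ) * ∫ z in Z a, Ψ (fun i => z (j i)) *
            max (z k - (c (fun i => z (j i)) - aeval (fun i => z (j (e i))) q)) 0 ^
              ((n + 1) + m₂)) := by
          simp only [h2]
          congr 1
          rw [Finset.mul_sum]
          refine Finset.sum_congr rfl fun a _ => ?_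
          ring
      _ = (n.factorial : ℝ) / (n + (m₁ + m₂ + 1)).factorial *
          ∫ z in Z₀, Ψ z * max (aeval (fun i => z (e i)) (p + q) - c z) 0 ^
            (n + (m₁ + m₂ + 1)) := by
          rw [h3]
          have e3 : n + 1 + m₂ + m₁ = n + (m₁ + m₂ + 1) := by ring
          rw [e3, ← mul_assoc, ← mul_assoc]
          congr 1
          · rw [Nat.factorial_succ n]
            have a1 : ((n : ℝ) + 1) ≠ 0 := by positivity
            have a2 : ((n + 1 + m₂).factorial : ℝ) ≠ 0 := by
              exact_mod_cast (n + 1 + m₂).factorial_ne_zero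
            push_cast
            field_simp
          · refine integral_congr_ae (Filter.Eventually.of_forall fun z => ?_)
            simp only [map_add]
            congr 3
            ring

end Pool.Agent.CQ68
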