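import Pool.Agent.W_2cf66e_h68.Weight68

/-!
# CQ: gadgets for constants and padding (helper68)
-/

set_option autoImplicit false

noncomputable section

open MeasureTheory MvPolynomial

namespace Pool.Agent.CQ68

/-- The last coordinate `w ≤ ψ`: one integration of the positive part. -/
theorem last_slab {τ : Type} [Fintype τ] {Z : Set (τ → ℝ)} (hZ : IsCompact Z) (φ ψ : MvPolynomial τ ℚ)
    (h : ∀ z ∈ Z, (aeval z φ : ℝ) ≤ aeval z ψ) (Φ c : (τ → ℝ) → ℝ) (hΦ : Continuous Φ)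
    (hc : Continuous c) (n : ℕ) (hn : 1 ≤ n) :
    ∫ z in slab Z φ ψ, Φ (fun i => z (Sum.inl i)) *
        max (z (Sum.inr ()) - c (fun i => z (Sum.inl i))) 0 ^ n =
      ∫ z in Z, Φ z * ((max (aeval z ψ - c z) 0 ^ (n + 1) - max (aeval z φ - c z) 0 ^ (n + 1)) /
        (n + 1)) := by
  have hcf : Continuous fun z : τ ⊕ Unit → ℝ => Φ (fun i => z (Sum.inl i)) *
      max (z (Sum.inr ()) - c (fun i => z (Sum.inl i))) 0 ^ n := by
    have h1 : Continuous fun (z : τ ⊕ Unit → ℝ) (i : τ) => z (Sum.inl i) :=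
      continuous_pi fun i => continuous_apply _
    exact (hΦ.comp h1).mul ((((continuous_apply _).sub (hc.comp h1)).max continuous_const).pow n)
  rw [slab_int hZ φ ψ h _ hcf]
  refine integral_congr_ae (Filter.Eventually.of_forall fun z => ?_)
  simp only [Sum.elim_inl, Sum.elim_inr]
  rw [intervalIntegral.integral_const_mul, pint_lo _ _ _ _ hn]

/-- If the lower end is below `c` then only the upper end contributes. -/
theorem last_slab' {τ : Type} [Fintype τ] {Z : Set (τ → ℝ)} (hZm : MeasurableSet Z)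
    (hZ : IsCompact Z) (φ ψ : MvPolynomial τ ℚ)
    (h : ∀ z ∈ Z, (aeval z φ : ℝ) ≤ aeval z ψ) (Φ c : (τ → ℝ) → ℝ) (hΦ : Continuous Φ)
    (hc : Continuous c) (n : ℕ) (hn : 1 ≤ n) (hlo : ∀ z ∈ Z, (aeval z φ : ℝ) ≤ c z) :
    ∫ z in slab Z φ ψ, Φ (fun i => z (Sum.inl i)) *
        max (z (Sum.inr ()) - c (fun i => z (Sum.inl i))) 0 ^ n =
      1 / ((n : ℝ) + 1) * ∫ z in Z, Φ z * max (aeval z ψ - c z) 0 ^ (n + 1) := by
  rw [last_slab hZ φ ψ h Φ c hΦ hc n hn, ← integral_const_mul]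
  refine setIntegral_congr_fun hZm fun z hz => ?_
  have h1 : max ((aeval z φ : ℝ) - c z) 0 = 0 := max_eq_right (by linarith [hlo z hz])
  simp only [h1]
  rw [zero_pow (by omega : n + 1 ≠ 0)]
  field_simp
  ring

theorem fact_step (n m : ℕ) : (1 : ℝ) / ((n : ℝ) + 1) * (((n + 1).factorial : ℝ) /
    ((n + 1 + m).factorial : ℝ)) = (n.factorial : ℝ) / ((n + (m + 1)).factorial : ℝ) := by
  rw [Nat.factorial_succ, show n + 1 + m = n + (m + 1) by ring]
  have : ((n : ℝ) + 1) ≠ 0 := by positivity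
  push_cast
  field_simp

theorem gad_C {ι : Type} [Fintype ι] (a : ℚ) : Gad (C a : MvPolynomial ι ℚ) 1 := by
  intro ρ hρ
  refine ⟨ρ + 1, by linarith, fun τ _ e => ?_⟩
  refine ⟨τ ⊕ Unit, inferInstance, Sum.inl, Sum.inr (), Unit, inferInstance, fun _ => 1,
    fun i => by simp, by simp; exact_mod_cast hρ, fun _ => by simp, fun l δ hl hδ hδ1 Z₀ hN hO => ?_⟩
  have hδr : (0 : ℝ) < δ := by exact_mod_cast hδ
  have hρr : (0 : ℝ) ≤ ρ := by exact_mod_cast hρ
  have hδ1r : (δ : ℝ) ≤ 1 := by exact_mod_cast hδ1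
  set lo : ℚ := a - (ρ + 1) * δ with hlo
  have e1 : ∀ z : τ → ℝ, (aeval z (C lo : MvPolynomial τ ℚ) : ℝ) = a - (ρ + 1) * δ := fun z => by
    simp [hlo]
  have e2 : ∀ z : τ → ℝ, (aeval z (C a : MvPolynomial τ ℚ) : ℝ) = a := fun z => by simp
  have e3 : ((eval l (C a : MvPolynomial ι ℚ) : ℚ) : ℝ) = a := by simp
  have hle : ∀ z ∈ Z₀, (aeval z (C lo : MvPolynomial τ ℚ) : ℝ) ≤
      aeval z (C a : MvPolynomial τ ℚ) := by
    intro z _
    rw [e1, e2]
    nlinarith
  refine ⟨fun _ => slab Z₀ (C lo) (C a), fun _ => slab_nice hN _ _ hle (cs_ge (deg_C' _))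
    (cs_le (deg_C' _)), fun _ z hz => ⟨hz.1, ?_⟩, fun _ => ?_, ?_⟩
  · have h1 := hz.2.1
    have h2 := hz.2.2
    rw [e1] at h1
    rw [e2] at h2
    rw [e3, abs_le]
    push_cast
    constructor
    · linarith
    · have : 0 ≤ ((ρ : ℝ) + 1) * δ := by positivity
      linarith
  · refine (slab_vol hN.cpt _ _ hle ((ρ + 1) * δ) fun z _ => ?_).trans ?_
    · rw [e1, e2]
      linarith
    · push_cast
      have : 0 ≤ volume.real Z₀ := measureReal_nonneg
      have h2 : ((ρ : ℝ) + 1) * δ ≤ (ρ + 1) * 1 := by gcongr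
      nlinarith
  · intro Ψ c hΨ hc hcl n hn
    rw [e3] at hcl
    simp only [Finset.univ_unique, Finset.sum_const, Finset.card_singleton, one_smul, Rat.cast_one,
      one_mul]
    rw [last_slab' hN.cs.meas hN.cpt (C lo) (C a) hle Ψ c hΨ hc n hn (fun z hz => by
      rw [e1]
      have := hcl z hz
      nlinarith)]
    congr 1
    · rw [Nat.factorial_succ]
      push_cast
      have : ((n : ℝ) + 1) ≠ 0 := by positivity
      have h3 : (n.factorial : ℝ) ≠ 0 := by exact_mod_cast n.factorial_ne_zero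
      field_simp
    · simp

theorem gad_pad {ι : Type} [Fintype ι] {p : MvPolynomial ι ℚ} {m : ℕ} (h : Gad p m) :
    Gad p (m + 1) := by
  intro ρ hρ
  obtain ⟨A, hA, H⟩ := h ρ hρ
  refine ⟨A * (2 * (A + ρ + 1)) + (2 * (A + ρ + 1)) , by positivity, fun τ _ e => ?_⟩
  obtain ⟨τ', _, j, k, α, _, σ, hjk, hcard, hσ, H⟩ := H τ e
  have hAr : (0 : ℝ) ≤ A := by exact_mod_cast hA
  have hρr : (0 : ℝ) ≤ ρ := by exact_mod_cast hρ
  refine ⟨τ' ⊕ Unit, inferInstance, fun i => Sum.inl (j i), Sum.inr (), α, inferInstance, σ,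
    fun i => by simp, hcard.trans ?_, hσ, fun l δ hl hδ hδ1 Z₀ hN hO => ?_⟩
  · push_cast
    nlinarith
  have hδr : (0 : ℝ) < δ := by exact_mod_cast hδ
  have hδ1r : (δ : ℝ) ≤ 1 := by exact_mod_cast hδ1
  obtain ⟨Z, hZN, hZ, hV, hF⟩ := H l δ hl hδ hδ1 Z₀ hN hO
  set P : ℚ := eval l p with hP
  set lo : ℚ := P - (A + ρ + 1) * δ with hlo
  have e1 : ∀ z : τ' → ℝ, (aeval z (C lo : MvPolynomial τ' ℚ) : ℝ) = P - (A + ρ + 1) * δ :=
    fun z => by simp [hlo]
  have e2 : ∀ z : τ' → ℝ, (aeval z (X k : MvPolynomial τ' ℚ) : ℝ) = z k := fun z => by simp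
  have hle : ∀ a, ∀ z ∈ Z a, (aeval z (C lo : MvPolynomial τ' ℚ) : ℝ) ≤
      aeval z (X k : MvPolynomial τ' ℚ) := by
    intro a z hz
    rw [e1, e2]
    have := (abs_le.1 (hZ a z hz).2).1
    nlinarith
  have hX : (X k : MvPolynomial τ' ℚ).totalDegree ≤ 1 := by rw [totalDegree_X]
  refine ⟨fun a => slab (Z a) (C lo) (X k), fun a => slab_nice (hZN a) _ _ (hle a)
    (cs_ge (deg_C' _)) (cs_le hX), fun a z hz => ⟨(hZ a _ hz.1).1, ?_⟩, fun a => ?_, ?_⟩
  · have h1 := hz.2.1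
    have h2 := hz.2.2
    rw [e1] at h1
    rw [e2] at h2
    have h3 := (abs_le.1 (hZ a _ hz.1).2).2
    rw [abs_le]
    push_cast
    have h4 : 0 ≤ (A : ℝ) * (2 * (A + ρ + 1)) * δ := by positivity
    constructor
    · nlinarith
    · nlinarith
  · refine (slab_vol (hZN a).cpt _ _ (hle a) (2 * (A + ρ + 1)) fun z hz => ?_).trans ?_
    · rw [e1, e2]
      have := (abs_le.1 (hZ a z hz).2).2
      nlinarith
    · have h1 := hV a
      have h2 : 0 ≤ volume.real Z₀ := measureReal_nonneg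
      have h3 : 0 ≤ 2 * ((A : ℝ) + ρ + 1) := by positivity
      push_cast
      nlinarith
  · intro Ψ c hΨ hc hcl n hn
    have h1 : ∀ a, ∫ z in slab (Z a) (C lo) (X k), Ψ (fun i => z (Sum.inl (j i))) *
        max (z (Sum.inr ()) - c (fun i => z (Sum.inl (j i)))) 0 ^ n =
        1 / ((n : ℝ) + 1) * ∫ z in Z a, Ψ (fun i => z (j i)) *
          max (z k - c (fun i => z (j i))) 0 ^ (n + 1) := by
      intro a
      have hcj : Continuous fun (z : τ' → ℝ) (i : τ) => z (j i) :=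
        continuous_pi fun i => continuous_apply _
      have := last_slab' (hZN a).cs.meas (hZN a).cpt (C lo) (X k) (hle a)
        (fun z => Ψ fun i => z (j i)) (fun z => c fun i => z (j i)) (hΨ.comp hcj) (hc.comp hcj) n hn
        (fun z hz => by
          rw [e1]
          have := hcl _ (hZ a z hz).1
          nlinarith)
      simp only [aeval_X] at this
      exact this
    simp only [h1]
    have h2 := hF Ψ c hΨ hc hcl (n + 1) (by omega)
    calc ∑ a, (σ a : ℝ) * (1 / ((n : ℝ) + 1) * ∫ z in Z a, Ψ (fun i => z (j i)) *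
          max (z k - c (fun i => z (j i))) 0 ^ (n + 1))
        = 1 / ((n : ℝ) + 1) * ∑ a, (σ a : ℝ) * ∫ z in Z a, Ψ (fun i => z (j i)) *
          max (z k - c (fun i => z (j i))) 0 ^ (n + 1) := by
          rw [Finset.mul_sum]
          refine Finset.sum_congr rfl fun a _ => by ring
      _ = _ := by
          rw [h2, ← mul_assoc, fact_step, show n + 1 + m = n + (m + 1) by ring]

end Pool.Agent.CQ68
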