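import Pool.Agent.W_2cf66e_h68.GadAdd68

/-!
# CQ: the product stage (helper3)
-/

set_option autoImplicit false

noncomputable section

open MeasureTheory MvPolynomial

namespace Pool.Agent.CQ68.M3

variable {τ : Type} [Fintype τ]

theorem cs_one {ι : Type} {q : MvPolynomial ι ℚ} (h : IsCQ q) :
    CS {z : ι → ℝ | 0 ≤ (aeval z q : ℝ)} := by
  refine ⟨1, fun _ => q, fun _ => h, ?_⟩
  ext z
  simp only [Set.mem_ofPred_eq]
  exact ⟨fun h _ => h, fun h => h 0⟩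

theorem deg_X {ι : Type} (i : ι) (c : ℚ) :
    (C c * X i : MvPolynomial ι ℚ).totalDegree ≤ 1 := by
  refine (totalDegree_mul _ _).trans ?_
  rw [totalDegree_C, totalDegree_X]

theorem deg_add {ι : Type} {p q : MvPolynomial ι ℚ} (hp : p.totalDegree ≤ 1)
    (hq : q.totalDegree ≤ 1) : (p + q).totalDegree ≤ 1 :=
  (totalDegree_add _ _).trans (max_le hp hq)

theorem deg_C {ι : Type} (c : ℚ) : (C c : MvPolynomial ι ℚ).totalDegree ≤ 1 := by
  rw [totalDegree_C]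
  exact Nat.zero_le 1

/-- The lower end of the first slab. -/
def φu (g k : τ) : MvPolynomial τ ℚ := C (1 / 4) * (X g + 3 - X k) ^ 2

/-- The moving end of the second slab. -/
def φw (g k : τ) : MvPolynomial (τ ⊕ Unit) ℚ :=
  C (1 / 4) * (X (Sum.inl g) + 3 + X (Sum.inl k)) ^ 2 - X (Sum.inr ())

omit [Fintype τ] in
theorem ev_u (g k : τ) (z : τ → ℝ) :
    (aeval z (φu g k) : ℝ) = (z g + 3 - z k) ^ 2 / 4 := by
  simp only [φu, map_mul, map_pow, map_sub, map_add, aeval_X, map_ofNat, aeval_C]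
  norm_num
  ring

omit [Fintype τ] in
theorem ev_w (g k : τ) (z : τ ⊕ Unit → ℝ) :
    (aeval z (φw g k) : ℝ) =
      (z (Sum.inl g) + 3 + z (Sum.inl k)) ^ 2 / 4 - z (Sum.inr ()) := by
  simp only [φw, map_mul, map_pow, map_sub, map_add, aeval_X, map_ofNat, aeval_C]
  norm_num
  ring

omit [Fintype τ] in
theorem cs_u (g k : τ) (hgk : g ≠ k) :
    CS {z : τ ⊕ Unit → ℝ | (aeval (fun i => z (Sum.inl i)) (φu g k) : ℝ) ≤ z (Sum.inr ())} := by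
  have h := cs_one (q := (C 4 * X (Sum.inr ()) + C (-6) * X (Sum.inl g) + C 6 * X (Sum.inl k) +
    C (-9) : MvPolynomial (τ ⊕ Unit) ℚ) - (X (Sum.inl g) - X (Sum.inl k)) ^ 2)
    (Or.inr ⟨_, _, _, deg_add (deg_add (deg_add (deg_X _ _) (deg_X _ _)) (deg_X _ _)) (deg_C _),
      fun h => hgk (Sum.inl_injective h), Or.inr rfl⟩)
  refine (congrArg CS (Set.ext fun z => ?_)).mpr h
  show (aeval (fun i => z (Sum.inl i)) (φu g k) : ℝ) ≤ z (Sum.inr ()) ↔ 0 ≤ (aeval z _ : ℝ)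
  rw [ev_u]
  simp only [map_mul, map_pow, map_sub, map_add, aeval_X, aeval_C]
  norm_num
  constructor <;> intro h <;> nlinarith [h]

omit [Fintype τ] in
theorem cs_w (g k : τ) (hgk : g ≠ k) :
    CS {z : (τ ⊕ Unit) ⊕ Unit → ℝ |
      (aeval (fun i => z (Sum.inl i)) (φw g k) : ℝ) ≤ z (Sum.inr ())} := by
  have h := cs_one (q := (C 4 * X (Sum.inr ()) + C 4 * X (Sum.inl (Sum.inr ())) +
    C (-6) * X (Sum.inl (Sum.inl g)) + C (-6) * X (Sum.inl (Sum.inl k)) +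
    C (-9) : MvPolynomial ((τ ⊕ Unit) ⊕ Unit) ℚ) -
      (X (Sum.inl (Sum.inl g)) + X (Sum.inl (Sum.inl k))) ^ 2)
    (Or.inr ⟨_, _, _, deg_add (deg_add (deg_add (deg_add (deg_X _ _) (deg_X _ _)) (deg_X _ _))
      (deg_X _ _)) (deg_C _), fun h => hgk (Sum.inl_injective (Sum.inl_injective h)), Or.inl rfl⟩)
  refine (congrArg CS (Set.ext fun z => ?_)).mpr h
  show (aeval (fun i => z (Sum.inl i)) (φw g k) : ℝ) ≤ z (Sum.inr ()) ↔ 0 ≤ (aeval z _ : ℝ)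
  rw [ev_w]
  simp only [map_mul, map_pow, map_sub, map_add, aeval_X, aeval_C]
  norm_num
  constructor <;> intro h <;> nlinarith [h]

theorem aevC {ι : Type} (z : ι → ℝ) (c : ℚ) : (aeval z (C c : MvPolynomial ι ℚ) : ℝ) = c := by
  rw [aeval_C]
  rfl

/-- The two slabs over a nice set: `u` above `(z_g + 3 - z_k)² / 4`, then `w` in the whole interval
or above `(z_g + 3 + z_k)² / 4 - u`. -/
theorem two_slabs {Z : Set (τ → ℝ)} (hZ : Nice Z) (g k : τ) (hgk : g ≠ k) (hi lo hw : ℚ)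
    (h1 : ∀ z ∈ Z, (z g + 3 - z k) ^ 2 / 4 ≤ (hi : ℝ)) (hlo : (lo : ℝ) ≤ hw)
    (h2 : ∀ z ∈ Z, ∀ u : ℝ, (z g + 3 - z k) ^ 2 / 4 ≤ u → u ≤ hi →
      (lo : ℝ) ≤ (z g + 3 + z k) ^ 2 / 4 - u ∧ (z g + 3 + z k) ^ 2 / 4 - u ≤ hw) :
    ∃ Tp Tm : Set ((τ ⊕ Unit) ⊕ Unit → ℝ), Nice Tp ∧ Nice Tm ∧
      (∀ z ∈ Tp, (fun i => z (Sum.inl (Sum.inl i))) ∈ Z ∧ (lo : ℝ) ≤ z (Sum.inr ()) ∧
        z (Sum.inr ()) ≤ hw) ∧
      (∀ z ∈ Tm, (fun i => z (Sum.inl (Sum.inl i))) ∈ Z ∧ (lo : ℝ) ≤ z (Sum.inr ()) ∧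
        z (Sum.inr ()) ≤ hw) ∧
      volume.real Tp ≤ (hw - lo) * (hi * volume.real Z) ∧
      volume.real Tm ≤ (hw - lo) * (hi * volume.real Z) ∧
      ∀ Ψ c : (τ → ℝ) → ℝ, Continuous Ψ → Continuous c → (∀ z ∈ Z, (lo : ℝ) ≤ c z) →
        (∀ z ∈ Z, (z g + 3 + z k) ^ 2 / 4 - c z ≤ hi) → ∀ n : ℕ, 1 ≤ n →
        (∫ z in Tp, Ψ (fun i => z (Sum.inl (Sum.inl i))) *
            max (z (Sum.inr ()) - c (fun i => z (Sum.inl (Sum.inl i)))) 0 ^ n) -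
          (∫ z in Tm, Ψ (fun i => z (Sum.inl (Sum.inl i))) *
            max (z (Sum.inr ()) - c (fun i => z (Sum.inl (Sum.inl i)))) 0 ^ n) =
          1 / ((n + 1 : ℝ) * (n + 2)) *
            ∫ z in Z, Ψ z * max ((z g + 3) * z k - c z) 0 ^ (n + 2) := by
  have hs : ∀ z ∈ Z, (aeval z (φu g k) : ℝ) ≤ aeval z (C hi : MvPolynomial τ ℚ) := by
    intro z hz
    rw [ev_u, aevC]
    exact h1 z hz
  have hS : Nice (slab Z (φu g k) (C hi)) :=
    slab_nice hZ _ _ hs (cs_u g k hgk) (cs_le (deg_C hi))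
  have hmem : ∀ z ∈ slab Z (φu g k) (C hi), (fun i => z (Sum.inl i)) ∈ Z ∧
      (z (Sum.inl g) + 3 - z (Sum.inl k)) ^ 2 / 4 ≤ z (Sum.inr ()) ∧ z (Sum.inr ()) ≤ hi := by
    rintro z ⟨hz1, hz2, hz3⟩
    rw [ev_u] at hz2
    rw [aevC] at hz3
    exact ⟨hz1, hz2, hz3⟩
  have hp : ∀ z ∈ slab Z (φu g k) (C hi), (aeval z (C lo : MvPolynomial (τ ⊕ Unit) ℚ) : ℝ) ≤
      aeval z (C hw : MvPolynomial (τ ⊕ Unit) ℚ) := by
    intro z _
    rw [aevC, aevC]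
    exact hlo
  have hm : ∀ z ∈ slab Z (φu g k) (C hi), (aeval z (φw g k) : ℝ) ≤
      aeval z (C hw : MvPolynomial (τ ⊕ Unit) ℚ) := by
    intro z hz
    obtain ⟨hz1, hz2, hz3⟩ := hmem z hz
    rw [ev_w, aevC]
    exact (h2 _ hz1 _ hz2 hz3).2
  have hTp : Nice (slab (slab Z (φu g k) (C hi)) (C lo) (C hw)) :=
    slab_nice hS _ _ hp (cs_ge (deg_C lo)) (cs_le (deg_C hw))
  have hTm : Nice (slab (slab Z (φu g k) (C hi)) (φw g k) (C hw)) :=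
    slab_nice hS _ _ hm (cs_w g k hgk) (cs_le (deg_C hw))
  have hvS : volume.real (slab Z (φu g k) (C hi)) ≤ hi * volume.real Z := by
    refine slab_vol hZ.cpt _ _ hs _ fun z _ => ?_
    rw [ev_u, aevC]
    have := sq_nonneg (z g + 3 - z k)
    linarith
  have hlw : (0 : ℝ) ≤ hw - lo := by linarith
  refine ⟨_, _, hTp, hTm, ?_, ?_, ?_, ?_, ?_⟩
  · rintro z ⟨hz1, hz2, hz3⟩
    rw [aevC] at hz2 hz3
    exact ⟨(hmem _ hz1).1, hz2, hz3⟩
  · rintro z ⟨hz1, hz2, hz3⟩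
    rw [ev_w] at hz2
    rw [aevC] at hz3
    obtain ⟨h3, h4, h5⟩ := hmem _ hz1
    exact ⟨h3, ((h2 _ h3 _ h4 h5).1).trans hz2, hz3⟩
  · refine (slab_vol hS.cpt _ _ hp (hw - lo) fun z _ => ?_).trans
      (mul_le_mul_of_nonneg_left hvS hlw)
    rw [aevC, aevC]
  · refine (slab_vol hS.cpt _ _ hm (hw - lo) fun z hz => ?_).trans
      (mul_le_mul_of_nonneg_left hvS hlw)
    obtain ⟨hz1, hz2, hz3⟩ := hmem z hz
    have h3 := (h2 _ hz1 _ hz2 hz3).1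
    rw [ev_w, aevC]
    linarith
  · intro Ψ c hΨ hc hc1 hc2 n hn
    have hj : Continuous fun (z : (τ ⊕ Unit) ⊕ Unit → ℝ) (i : τ) => z (Sum.inl (Sum.inl i)) := by
      fun_prop
    have hj2 : Continuous fun (z : τ ⊕ Unit → ℝ) (i : τ) => z (Sum.inl i) := by
      fun_prop
    have hf : Continuous fun z : (τ ⊕ Unit) ⊕ Unit → ℝ =>
        Ψ (fun i => z (Sum.inl (Sum.inl i))) *
          max (z (Sum.inr ()) - c (fun i => z (Sum.inl (Sum.inl i)))) 0 ^ n := by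
      have h3 := hΨ.comp hj
      have h4 := hc.comp hj
      have h5 : Continuous fun z : (τ ⊕ Unit) ⊕ Unit → ℝ => z (Sum.inr ()) := continuous_apply _
      exact h3.mul (((h5.sub h4).max continuous_const).pow n)
    have hn1 : ((n : ℝ) + 1) ≠ 0 := by positivity
    have hn2 : ((n : ℝ) + 2) ≠ 0 := by positivity
    rw [slab_int hS.cpt _ _ hp _ hf, slab_int hS.cpt _ _ hm _ hf]
    have e1 : ∀ z ∈ slab Z (φu g k) (C hi),
        (∫ w in (aeval z (C lo : MvPolynomial (τ ⊕ Unit) ℚ) : ℝ)..(aeval z (C hw)),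
          Ψ (fun i => (Sum.elim z fun _ => w : (τ ⊕ Unit) ⊕ Unit → ℝ) (Sum.inl (Sum.inl i))) *
          max ((Sum.elim z fun _ => w : (τ ⊕ Unit) ⊕ Unit → ℝ) (Sum.inr ()) -
            c (fun i => (Sum.elim z fun _ => w : (τ ⊕ Unit) ⊕ Unit → ℝ)
              (Sum.inl (Sum.inl i)))) 0 ^ n) =
        Ψ (fun i => z (Sum.inl i)) *
          (max (hw - c fun i => z (Sum.inl i)) 0 ^ (n + 1) / (n + 1)) := by
      intro z hz
      have h3 := hc1 _ (hmem z hz).1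
      simp only [Sum.elim_inl, Sum.elim_inr]
      rw [intervalIntegral.integral_const_mul, pint_lo _ _ _ n hn, aevC, aevC]
      have h4 : max ((lo : ℝ) - c fun i => z (Sum.inl i)) 0 = 0 := max_eq_right (by linarith)
      rw [h4, zero_pow (by omega), sub_zero]
    have e2 : ∀ z ∈ slab Z (φu g k) (C hi),
        (∫ w in (aeval z (φw g k) : ℝ)..(aeval z (C hw : MvPolynomial (τ ⊕ Unit) ℚ)),
          Ψ (fun i => (Sum.elim z fun _ => w : (τ ⊕ Unit) ⊕ Unit → ℝ) (Sum.inl (Sum.inl i))) *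
          max ((Sum.elim z fun _ => w : (τ ⊕ Unit) ⊕ Unit → ℝ) (Sum.inr ()) -
            c (fun i => (Sum.elim z fun _ => w : (τ ⊕ Unit) ⊕ Unit → ℝ)
              (Sum.inl (Sum.inl i)))) 0 ^ n) =
        Ψ (fun i => z (Sum.inl i)) *
          ((max (hw - c fun i => z (Sum.inl i)) 0 ^ (n + 1) -
            max (((z (Sum.inl g) + 3 + z (Sum.inl k)) ^ 2 / 4 - c fun i => z (Sum.inl i)) -
              z (Sum.inr ())) 0 ^ (n + 1)) / (n + 1)) := by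
      intro z hz
      simp only [Sum.elim_inl, Sum.elim_inr]
      rw [intervalIntegral.integral_const_mul, pint_lo _ _ _ n hn, aevC, ev_w,
        sub_right_comm ((z (Sum.inl g) + 3 + z (Sum.inl k)) ^ 2 / 4)]
    rw [setIntegral_congr_fun hS.cpt.measurableSet e1,
      setIntegral_congr_fun hS.cpt.measurableSet e2]
    have hK : ∀ f : (τ ⊕ Unit → ℝ) → ℝ, Continuous f →
        IntegrableOn f (slab Z (φu g k) (C hi)) := fun f hf =>
      hf.continuousOn.integrableOn_compact hS.cpt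
    have hΨ2 : Continuous fun z : τ ⊕ Unit → ℝ => Ψ fun i => z (Sum.inl i) := hΨ.comp hj2
    have hc2' : Continuous fun z : τ ⊕ Unit → ℝ => c fun i => z (Sum.inl i) := hc.comp hj2
    rw [← integral_sub]
    rotate_left
    · exact hK _ (hΨ2.mul ((((continuous_const.sub hc2').max continuous_const).pow _).div_const _))
    · refine hK _ (hΨ2.mul (Continuous.div_const (Continuous.sub ?_ ?_) _))
      · exact ((continuous_const.sub hc2').max continuous_const).pow _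
      · refine Continuous.pow (Continuous.max (Continuous.sub (Continuous.sub ?_ hc2') ?_)
          continuous_const) _
        · fun_prop
        · fun_prop
    have e3 : ∀ z : τ ⊕ Unit → ℝ,
        Ψ (fun i => z (Sum.inl i)) * (max (hw - c fun i => z (Sum.inl i)) 0 ^ (n + 1) / (n + 1)) -
          Ψ (fun i => z (Sum.inl i)) *
          ((max (hw - c fun i => z (Sum.inl i)) 0 ^ (n + 1) -
            max (((z (Sum.inl g) + 3 + z (Sum.inl k)) ^ 2 / 4 - c fun i => z (Sum.inl i)) -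
              z (Sum.inr ())) 0 ^ (n + 1)) / (n + 1)) =
        (1 / (n + 1 : ℝ)) * (Ψ (fun i => z (Sum.inl i)) *
          max (((z (Sum.inl g) + 3 + z (Sum.inl k)) ^ 2 / 4 - c fun i => z (Sum.inl i)) -
              z (Sum.inr ())) 0 ^ (n + 1)) := by
      intro z
      field_simp
      ring
    simp only [e3]
    rw [integral_const_mul]
    have hf3 : Continuous fun z : τ ⊕ Unit → ℝ => Ψ (fun i => z (Sum.inl i)) *
          max (((z (Sum.inl g) + 3 + z (Sum.inl k)) ^ 2 / 4 - c fun i => z (Sum.inl i)) -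
              z (Sum.inr ())) 0 ^ (n + 1) := by
      refine hΨ2.mul (Continuous.pow (Continuous.max (Continuous.sub (Continuous.sub ?_ hc2') ?_)
          continuous_const) _)
      · fun_prop
      · fun_prop
    rw [slab_int hZ.cpt _ _ hs _ hf3]
    have e4 : ∀ z ∈ Z, (∫ u in (aeval z (φu g k) : ℝ)..(aeval z (C hi : MvPolynomial τ ℚ)),
        Ψ (fun i => (Sum.elim z fun _ => u : τ ⊕ Unit → ℝ) (Sum.inl i)) *
          max ((((Sum.elim z fun _ => u : τ ⊕ Unit → ℝ) (Sum.inl g) + 3 +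
            (Sum.elim z fun _ => u : τ ⊕ Unit → ℝ) (Sum.inl k)) ^ 2 / 4 -
            c fun i => (Sum.elim z fun _ => u : τ ⊕ Unit → ℝ) (Sum.inl i)) -
              (Sum.elim z fun _ => u : τ ⊕ Unit → ℝ) (Sum.inr ())) 0 ^ (n + 1)) =
        (1 / (n + 2 : ℝ)) * (Ψ z * max ((z g + 3) * z k - c z) 0 ^ (n + 2)) := by
      intro z hz
      simp only [Sum.elim_inl, Sum.elim_inr]
      rw [intervalIntegral.integral_const_mul, pint_hi _ _ _ (n + 1) (by omega), aevC, ev_u]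
      have h4 := hc2 z hz
      have h5 : max ((z g + 3 + z k) ^ 2 / 4 - c z - (hi : ℝ)) 0 = 0 :=
        max_eq_right (by linarith)
      have h6 : (z g + 3 + z k) ^ 2 / 4 - c z - (z g + 3 - z k) ^ 2 / 4 =
          (z g + 3) * z k - c z := by ring
      rw [h5, h6, zero_pow (by omega), sub_zero]
      push_cast
      have h7 : ((n : ℝ) + 1 + 1) = n + 2 := by ring
      rw [h7]
      ring
    rw [setIntegral_congr_fun hZ.cpt.measurableSet e4, integral_const_mul]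
    field_simp

theorem geo (x x0 D K : ℝ) (h1 : |x - x0| ≤ D) (h2 : |x| ≤ K) (h3 : |x0| ≤ K) :
    |x ^ 2 / 4 - x0 ^ 2 / 4| ≤ D * K := by
  have h4 : x ^ 2 / 4 - x0 ^ 2 / 4 = (x - x0) * ((x + x0) / 4) := by ring
  have h5 : |(x + x0) / 4| ≤ K := by
    rw [abs_div, abs_of_pos (by norm_num : (0 : ℝ) < 4)]
    have h6 := abs_add_le x x0
    have h7 := abs_nonneg x
    linarith
  rw [h4, abs_mul]
  exact mul_le_mul h1 h5 (abs_nonneg _) ((abs_nonneg _).trans h1)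

theorem geo2 (g l0 b b0 M A δ : ℝ) (hg : |g| ≤ 1) (hl : |l0| ≤ 1) (hgl : |g - l0| ≤ δ)
    (hb : |b - b0| ≤ A * δ) (hb0 : |b0| ≤ M) (hδ1 : δ ≤ 1) (hA : 0 ≤ A) :
    |(g + 3 - b) ^ 2 / 4 - (l0 + 3 - b0) ^ 2 / 4| ≤ (1 + A) * (4 + M + A) * δ ∧
      |(g + 3 + b) ^ 2 / 4 - (l0 + 3 + b0) ^ 2 / 4| ≤ (1 + A) * (4 + M + A) * δ := by
  have hAδ : A * δ ≤ A := by nlinarith
  rw [abs_le] at hg hl hgl hb hb0
  have e : (1 + A) * (4 + M + A) * δ = ((1 + A) * δ) * (4 + M + A) := by ring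
  rw [e]
  constructor
  · refine geo _ _ _ _ ?_ ?_ ?_ <;> rw [abs_le] <;> constructor <;> linarith
  · refine geo _ _ _ _ ?_ ?_ ?_ <;> rw [abs_le] <;> constructor <;> linarith

end Pool.Agent.CQ68.M3

namespace Pool.Agent.CQ68

open M3

theorem gad_mul {ι : Type} [Fintype ι] {p : MvPolynomial ι ℚ} {m : ℕ} (h : Gad p m) (j₀ : ι) :
    Gad (p * (X j₀ + 3)) (m + 2) := by
  intro ρ hρ
  obtain ⟨M, hM0, hM⟩ := bd_eval p
  obtain ⟨A₁, hA₁, H⟩ := h (M + ρ) (by positivity)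
  obtain ⟨B, hB⟩ : ∃ B : ℚ, B = (1 + A₁) * (4 + M + A₁) := ⟨_, rfl⟩
  have hB0 : 0 ≤ B := by rw [hB]; positivity
  obtain ⟨V, hV⟩ : ∃ V : ℚ, V = (4 * B + ρ) * (((4 + M) ^ 2 + B + ρ) * (A₁ * 4 ^ m)) := ⟨_, rfl⟩
  have hV0 : 0 ≤ V := by rw [hV]; positivity
  refine ⟨2 * A₁ + (4 * B + ρ) + V, by positivity, fun τ _ e => ?_⟩
  obtain ⟨τ₁, _, j₁, HW⟩ := weight τ (e j₀) m
  obtain ⟨τ₂, _, j₂, k₂, α, _, σ, hjk, hcard, hσ, HG⟩ := H τ₁ (fun i => j₁ (e i))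
  refine ⟨(τ₂ ⊕ Unit) ⊕ Unit, inferInstance, fun i => Sum.inl (Sum.inl (j₂ (j₁ i))), Sum.inr (),
    α ⊕ α, inferInstance, Sum.elim σ (fun a => -σ a), fun i => Sum.inl_ne_inr, ?_, ?_, ?_⟩
  · rw [Fintype.card_sum]
    have h1 : (0 : ℝ) ≤ V := by exact_mod_cast hV0
    have h2 : (0 : ℝ) ≤ B := by exact_mod_cast hB0
    have h3 : (0 : ℝ) ≤ ρ := by exact_mod_cast hρ
    push_cast
    linarith
  · rintro (a | a)
    · exact hσ a
    · rw [Sum.elim_inr, abs_neg]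
      exact hσ a
  intro l δ hl hδ hδ1 Z₀ hZ₀ hOn
  obtain ⟨Z₁, hZ₁, hZ₁m, hZ₁v, hZ₁i⟩ := HW Z₀ hZ₀ (fun z hz => (hOn z hz j₀).1)
  have hOn₁ : OnC l δ (fun i => j₁ (e i)) Z₁ := fun z hz i => hOn _ (hZ₁m z hz) i
  obtain ⟨Z₂, hZ₂, hZ₂m, hZ₂v, hZ₂i⟩ := HG l δ hl hδ hδ1 Z₁ hZ₁ hOn₁
  have hb0 := hM l hl
  have hev : (eval l (p * (X j₀ + 3)) : ℚ) = eval l p * (l j₀ + 3) := by
    simp only [map_mul, map_add, eval_X, map_ofNat]
  rw [hev]
  generalize eval l p = b0 at hb0 hZ₂m hZ₂i hev ⊢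
  have hb0' : |(b0 : ℝ)| ≤ M := by exact_mod_cast hb0
  have hδ' : (0 : ℝ) < δ := by exact_mod_cast hδ
  have hδ1' : (δ : ℝ) ≤ 1 := by exact_mod_cast hδ1
  have hρ' : (0 : ℝ) ≤ ρ := by exact_mod_cast hρ
  have hM0' : (0 : ℝ) ≤ M := by exact_mod_cast hM0
  have hA₁' : (0 : ℝ) ≤ A₁ := by exact_mod_cast hA₁
  have hB0' : (0 : ℝ) ≤ B := by exact_mod_cast hB0
  have hV0' : (0 : ℝ) ≤ V := by exact_mod_cast hV0
  have hB' : (B : ℝ) = (1 + A₁) * (4 + M + A₁) := by rw [hB]; push_cast; ring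
  have hl0 : |((l j₀ : ℚ) : ℝ)| ≤ 1 := by exact_mod_cast hl j₀
  obtain ⟨hi, hhi⟩ : ∃ hi : ℚ, hi = (l j₀ + 3 - b0) ^ 2 / 4 + (B + ρ) * δ := ⟨_, rfl⟩
  obtain ⟨lo, hlo⟩ : ∃ lo : ℚ, lo = b0 * (l j₀ + 3) - (2 * B + ρ) * δ := ⟨_, rfl⟩
  obtain ⟨hw, hhw⟩ : ∃ hw : ℚ, hw = b0 * (l j₀ + 3) + 2 * B * δ := ⟨_, rfl⟩
  have hhi' : (hi : ℝ) = (l j₀ + 3 - b0) ^ 2 / 4 + (B + ρ) * δ := by rw [hhi]; push_cast; ring
  have hlo' : (lo : ℝ) = b0 * (l j₀ + 3) - (2 * B + ρ) * δ := by rw [hlo]; push_cast; ring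
  have hhw' : (hw : ℝ) = b0 * (l j₀ + 3) + 2 * B * δ := by rw [hhw]; push_cast; ring
  have hBδ : (0 : ℝ) ≤ B * δ := by positivity
  have hρδ : (0 : ℝ) ≤ ρ * δ := by positivity
  -- geometry on the pieces
  have hgeo : ∀ a, ∀ z ∈ Z₂ a, (fun i => z (j₂ (j₁ i))) ∈ Z₀ ∧ |z (j₂ (j₁ (e j₀)))| ≤ 1 ∧
      |(z (j₂ (j₁ (e j₀))) + 3 - z k₂) ^ 2 / 4 - ((l j₀ : ℝ) + 3 - b0) ^ 2 / 4| ≤ (B : ℝ) * δ ∧
      |(z (j₂ (j₁ (e j₀))) + 3 + z k₂) ^ 2 / 4 - ((l j₀ : ℝ) + 3 + b0) ^ 2 / 4| ≤ (B : ℝ) * δ := by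
    intro a z hz
    obtain ⟨h1, h2⟩ := hZ₂m a z hz
    have h3 := hZ₁m _ h1
    obtain ⟨h4, h5⟩ := hOn _ h3 j₀
    have h6 := geo2 _ _ _ _ M A₁ δ h4 hl0 h5 h2 hb0' hδ1' hA₁'
    rw [← hB'] at h6
    exact ⟨h3, h4, h6.1, h6.2⟩
  have htwo : ∀ a, _ := fun a => two_slabs (hZ₂ a) (j₂ (j₁ (e j₀))) k₂ (hjk _) hi lo hw
    (fun z hz => by
      have h1 := (abs_le.1 (hgeo a z hz).2.2.1).2
      rw [hhi']
      nlinarith)
    (by rw [hlo', hhw']; nlinarith)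
    (fun z hz u hu1 hu2 => by
      obtain ⟨_, _, h1, h2⟩ := hgeo a z hz
      rw [abs_le] at h1 h2
      rw [hhi'] at hu2
      rw [hlo', hhw']
      constructor <;> nlinarith)
  choose Tp Tm hTp hTm hTpm hTmm hTpv hTmv hTi using htwo
  have hvol : ∀ a, (hw - lo : ℝ) * (hi * volume.real (Z₂ a)) ≤
      ((2 * A₁ + (4 * B + ρ) + V : ℚ) : ℝ) * volume.real Z₀ := by
    intro a
    have h1 : (hw - lo : ℝ) ≤ 4 * B + ρ := by
      rw [hhw', hlo']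
      nlinarith
    have h1' : (0 : ℝ) ≤ hw - lo := by
      rw [hhw', hlo']
      nlinarith
    have h2 : (hi : ℝ) ≤ (4 + M) ^ 2 + B + ρ := by
      rw [hhi']
      have h3 : |((l j₀ : ℝ) + 3 - b0)| ≤ 4 + M := by
        rw [abs_le] at hl0 hb0' ⊢
        constructor <;> linarith
      have h4 : ((l j₀ : ℝ) + 3 - b0) ^ 2 ≤ (4 + M) ^ 2 := sq_le_sq' (by
        linarith [(abs_le.1 h3).1]) (abs_le.1 h3).2
      nlinarith [sq_nonneg (4 + (M : ℝ))]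
    have h2' : (0 : ℝ) ≤ hi := by
      rw [hhi']
      positivity
    have h3 : volume.real (Z₂ a) ≤ (A₁ * 4 ^ m) * volume.real Z₀ := by
      refine (hZ₂v a).trans ?_
      rw [mul_assoc]
      exact mul_le_mul_of_nonneg_left hZ₁v hA₁'
    have h4 : (0 : ℝ) ≤ volume.real Z₀ := measureReal_nonneg
    have h5 : (0 : ℝ) ≤ volume.real (Z₂ a) := measureReal_nonneg
    have h6 : (hw - lo : ℝ) * (hi * volume.real (Z₂ a)) ≤
        (4 * B + ρ) * (((4 + M) ^ 2 + B + ρ) * ((A₁ * 4 ^ m) * volume.real Z₀)) := by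
      refine mul_le_mul h1 (mul_le_mul h2 h3 h5 (h2'.trans h2)) (by positivity) (by positivity)
    refine h6.trans ?_
    have h7 : ((2 * A₁ + (4 * B + ρ) + V : ℚ) : ℝ) * volume.real Z₀ =
        (2 * A₁ + (4 * B + ρ)) * volume.real Z₀ +
        (4 * B + ρ) * (((4 + M) ^ 2 + B + ρ) * ((A₁ * 4 ^ m) * volume.real Z₀)) := by
      rw [hV]
      push_cast
      ring
    rw [h7]
    have h8 : (0 : ℝ) ≤ (2 * A₁ + (4 * B + ρ)) * volume.real Z₀ := by positivity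
    linarith
  have hnear : ∀ w : ℝ, (lo : ℝ) ≤ w → w ≤ hw →
      |w - ((b0 * (l j₀ + 3) : ℚ) : ℝ)| ≤ ((2 * A₁ + (4 * B + ρ) + V : ℚ) : ℝ) * δ := by
    intro w h1 h2
    rw [hlo'] at h1
    rw [hhw'] at h2
    push_cast
    rw [abs_le]
    have h3 : (0 : ℝ) ≤ A₁ * δ := by positivity
    have h4 : (0 : ℝ) ≤ V * δ := by positivity
    constructor <;> nlinarith
  refine ⟨Sum.elim Tp Tm, ?_, ?_, ?_, ?_⟩
  · rintro (a | a)
    · exact hTp a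
    · exact hTm a
  · rintro (a | a) z hz
    · obtain ⟨h1, h2, h3⟩ := hTpm a z hz
      exact ⟨(hgeo a _ h1).1, hnear _ h2 h3⟩
    · obtain ⟨h1, h2, h3⟩ := hTmm a z hz
      exact ⟨(hgeo a _ h1).1, hnear _ h2 h3⟩
  · rintro (a | a)
    · exact (hTpv a).trans (hvol a)
    · exact (hTmv a).trans (hvol a)
  intro Ψ c hΨ hc hcc n hn
  have hj₂ : Continuous fun (z : τ₂ → ℝ) (i : τ) => z (j₂ (j₁ i)) := by fun_prop
  have hj₁ : Continuous fun (z : τ₁ → ℝ) (i : τ) => z (j₁ i) := by fun_prop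
  rw [Fintype.sum_sum_type]
  simp only [Sum.elim_inl, Sum.elim_inr]
  have e1 : ∀ a, _ := fun a => hTi a (fun z => Ψ fun i => z (j₂ (j₁ i)))
    (fun z => c fun i => z (j₂ (j₁ i))) (hΨ.comp hj₂) (hc.comp hj₂)
    (fun z hz => by
      have h1 := hcc _ (hgeo a z hz).1
      push_cast at h1
      rw [hlo']
      nlinarith)
    (fun z hz => by
      have h1 := hcc _ (hgeo a z hz).1
      have h2 := (abs_le.1 (hgeo a z hz).2.2.2).2
      push_cast at h1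
      rw [hhi']
      nlinarith) n hn
  have e2 : ∀ a, ∫ z in Z₂ a, (fun z : τ₂ → ℝ => Ψ fun i => z (j₂ (j₁ i))) z *
      max ((z (j₂ (j₁ (e j₀))) + 3) * z k₂ - (fun z : τ₂ → ℝ => c fun i => z (j₂ (j₁ i))) z) 0
        ^ (n + 2) =
      ∫ z in Z₂ a, (fun z₁ : τ₁ → ℝ => Ψ (fun i => z₁ (j₁ i)) * (z₁ (j₁ (e j₀)) + 3) ^ (n + 2))
        (fun i => z (j₂ i)) * max (z k₂ - (fun z₁ : τ₁ → ℝ => c (fun i => z₁ (j₁ i)) /
          max (z₁ (j₁ (e j₀)) + 3) 2) (fun i => z (j₂ i))) 0 ^ (n + 2) := by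
    intro a
    refine setIntegral_congr_fun (hZ₂ a).cpt.measurableSet fun z hz => ?_
    have h1 := (abs_le.1 (hgeo a z hz).2.1).1
    have h2 : max (z (j₂ (j₁ (e j₀))) + 3) 2 = z (j₂ (j₁ (e j₀))) + 3 :=
      max_eq_left (by linarith)
    have h3 : z (j₂ (j₁ (e j₀))) + 3 ≠ 0 := by linarith
    have h4 : (z (j₂ (j₁ (e j₀))) + 3) * z k₂ - c (fun i => z (j₂ (j₁ i))) =
        (z (j₂ (j₁ (e j₀))) + 3) * (z k₂ - c (fun i => z (j₂ (j₁ i))) /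
          (z (j₂ (j₁ (e j₀))) + 3)) := by
      field_simp
    simp only [h2]
    rw [h4, max_mul_pow _ _ (by linarith)]
    ring
  have hm2 : ∀ x : ℝ, (0 : ℝ) < max (x + 3) 2 := fun x => lt_of_lt_of_le two_pos (le_max_right _ _)
  have e3 := hZ₂i (fun z₁ : τ₁ → ℝ => Ψ (fun i => z₁ (j₁ i)) * (z₁ (j₁ (e j₀)) + 3) ^ (n + 2))
    (fun z₁ : τ₁ → ℝ => c (fun i => z₁ (j₁ i)) / max (z₁ (j₁ (e j₀)) + 3) 2)
    ((hΨ.comp hj₁).mul (by fun_prop))
    ((hc.comp hj₁).div (by fun_prop) fun z => (hm2 _).ne')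
    (fun z hz => by
      have h0 := hZ₁m z hz
      have h1 := hcc _ h0
      obtain ⟨h2, h3⟩ := hOn _ h0 j₀
      rw [abs_le] at h2 h3 hb0'
      have h4 : max (z (j₁ (e j₀)) + 3) 2 = z (j₁ (e j₀)) + 3 := max_eq_left (by linarith)
      rw [h4, le_div_iff₀ (by linarith)]
      push_cast at h1 ⊢
      have h5 : (b0 : ℝ) * (z (j₁ (e j₀)) - l j₀) ≤ M * δ := by
        rcases le_total 0 (z (j₁ (e j₀)) - l j₀) with h | h <;> nlinarith
      have h6 : (M + ρ : ℝ) * δ * 2 ≤ (M + ρ) * δ * (z (j₁ (e j₀)) + 3) :=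
        mul_le_mul_of_nonneg_left (by linarith) (by positivity)
      have h7 : (0 : ℝ) ≤ M * δ := by positivity
      nlinarith) (n + 2) (by omega)
  have e4 : ∫ z in Z₁, (fun z₁ : τ₁ → ℝ => Ψ (fun i => z₁ (j₁ i)) *
      (z₁ (j₁ (e j₀)) + 3) ^ (n + 2)) z * max ((aeval (fun i => z (j₁ (e i))) p : ℝ) -
        (fun z₁ : τ₁ → ℝ => c (fun i => z₁ (j₁ i)) / max (z₁ (j₁ (e j₀)) + 3) 2) z) 0
          ^ (n + 2 + m) =
      ∫ z in Z₀, Ψ z * max ((aeval (fun i => z (e i)) (p * (X j₀ + 3)) : ℝ) - c z) 0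
        ^ (n + (m + 2)) := by
    have h1 := hZ₁i (fun z : τ → ℝ => Ψ z * (z (e j₀) + 3) ^ (n + 2) *
      max ((aeval (fun i => z (e i)) p : ℝ) - c z / max (z (e j₀) + 3) 2) 0 ^ (n + 2 + m)) ?_
    · refine Eq.trans h1 (setIntegral_congr_fun hZ₀.cpt.measurableSet fun z hz => ?_)
      have h2 := (abs_le.1 (hOn z hz j₀).1).1
      have h3 : max (z (e j₀) + 3) 2 = z (e j₀) + 3 := max_eq_left (by linarith)
      have h4 : z (e j₀) + 3 ≠ 0 := by linarith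
      have h5 : (aeval (fun i => z (e i)) (p * (X j₀ + 3)) : ℝ) - c z =
          (z (e j₀) + 3) * ((aeval (fun i => z (e i)) p : ℝ) - c z / (z (e j₀) + 3)) := by
        simp only [map_mul, map_add, aeval_X, map_ofNat]
        field_simp
      simp only [h3]
      rw [h5, max_mul_pow _ _ (by linarith)]
      ring
    · have h2 : Continuous fun z : τ → ℝ => (aeval (fun i => z (e i)) p : ℝ) :=
        (cont_aev p).comp (by fun_prop)
      refine (hΨ.mul (by fun_prop)).mul (Continuous.pow (Continuous.max (h2.sub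
        (hc.div (by fun_prop) fun z => (hm2 _).ne')) continuous_const) _)
  rw [e4] at e3
  have e5 : ∀ a, (σ a : ℝ) * (∫ z in Tp a, Ψ (fun i => z (Sum.inl (Sum.inl (j₂ (j₁ i))))) *
        max (z (Sum.inr ()) - c (fun i => z (Sum.inl (Sum.inl (j₂ (j₁ i)))))) 0 ^ n) +
      ((-σ a : ℚ) : ℝ) * (∫ z in Tm a, Ψ (fun i => z (Sum.inl (Sum.inl (j₂ (j₁ i))))) *
        max (z (Sum.inr ()) - c (fun i => z (Sum.inl (Sum.inl (j₂ (j₁ i)))))) 0 ^ n) =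
      1 / ((n + 1 : ℝ) * (n + 2)) * ((σ a : ℝ) * ∫ z in Z₂ a,
        (fun z₁ : τ₁ → ℝ => Ψ (fun i => z₁ (j₁ i)) * (z₁ (j₁ (e j₀)) + 3) ^ (n + 2))
        (fun i => z (j₂ i)) * max (z k₂ - (fun z₁ : τ₁ → ℝ => c (fun i => z₁ (j₁ i)) /
          max (z₁ (j₁ (e j₀)) + 3) 2) (fun i => z (j₂ i))) 0 ^ (n + 2)) := by
    intro a
    have h1 := e1 a
    rw [e2 a] at h1
    push_cast
    linear_combination (σ a : ℝ) * h1
  rw [← Finset.sum_add_distrib, Finset.sum_congr rfl fun a _ => e5 a, ← Finset.mul_sum, e3,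
    ← mul_assoc]
  congr 1
  have h1 : n + 2 + m = n + (m + 2) := by ring
  have h2 : ((n + 2).factorial : ℝ) = (n + 2) * ((n + 1) * n.factorial) := by
    rw [Nat.factorial_succ, Nat.factorial_succ]
    push_cast
    ring
  rw [h1, h2]
  field_simp

end Pool.Agent.CQ68
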