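import Pool.Agent.W_2cf66e_h68.Defs68
import Pool.Agent.W_2cf66e_h46.QA
import Pool.Agent.W_2cf66e_h46.QB

/-!
# MP_2cf66e_nt (periods), convex quadratic volumes: slabs (helper85)

One more coordinate `w` with `φ z ≤ w ≤ ψ z` over a nice set: Fubini, compactness, niceness and a
bound for the volume.
-/

set_option autoImplicit false

noncomputable section

open MeasureTheory MvPolynomial

namespace Pool.Agent.CQ68

open Pool.Agent.QVol (cont_aeval fib int_fib)

namespace Slab85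

/-- The base point of a point of the slab. -/
theorem cont_inl {τ : Type} : Continuous fun z : τ ⊕ Unit → ℝ => fun i => z (Sum.inl i) :=
  continuous_pi fun i => continuous_apply (Sum.inl i)

theorem cont_elim {τ : Type} (z : τ → ℝ) :
    Continuous fun w : ℝ => (Sum.elim z fun _ => w : τ ⊕ Unit → ℝ) := by
  refine continuous_pi fun i => ?_
  cases i with
  | inl i => exact continuous_const
  | inr i => exact continuous_id

theorem closed_slab {τ : Type} {Z : Set (τ → ℝ)} (hZ : IsCompact Z) (φ ψ : MvPolynomial τ ℚ) :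
    IsClosed (slab Z φ ψ) := by
  have h1 : IsClosed {z : τ ⊕ Unit → ℝ | (fun i => z (Sum.inl i)) ∈ Z} :=
    hZ.isClosed.preimage cont_inl
  have h2 : IsClosed {z : τ ⊕ Unit → ℝ |
      (aeval (fun i => z (Sum.inl i)) φ : ℝ) ≤ z (Sum.inr ())} :=
    isClosed_le ((cont_aeval φ).comp cont_inl) (continuous_apply _)
  have h3 : IsClosed {z : τ ⊕ Unit → ℝ |
      z (Sum.inr ()) ≤ (aeval (fun i => z (Sum.inl i)) ψ : ℝ)} :=
    isClosed_le (continuous_apply _) ((cont_aeval ψ).comp cont_inl)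
  exact h1.inter (h2.inter h3)

theorem inter {ι : Type} {S T : Set (ι → ℝ)} (hS : CS S) (hT : CS T) : CS (S ∩ T) := by
  obtain ⟨m, q, hq, rfl⟩ := hS
  obtain ⟨m', q', hq', rfl⟩ := hT
  refine ⟨m + m', Fin.append q q', fun i => ?_, ?_⟩
  · refine Fin.addCases (fun i => ?_) (fun i => ?_) i
    · rw [Fin.append_left]
      exact hq i
    · rw [Fin.append_right]
      exact hq' i
  · ext z
    simp only [Set.mem_inter_iff, Set.mem_ofPred_eq]
    constructor
    · rintro ⟨h1, h2⟩ i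
      refine Fin.addCases (fun i => ?_) (fun i => ?_) i
      · rw [Fin.append_left]
        exact h1 i
      · rw [Fin.append_right]
        exact h2 i
    · intro h
      constructor
      · intro i
        have h1 := h (Fin.castAdd m' i)
        rwa [Fin.append_left] at h1
      · intro i
        have h1 := h (Fin.natAdd m i)
        rwa [Fin.append_right] at h1

theorem iscq_ren {ι κ : Type} {q : MvPolynomial ι ℚ} (h : IsCQ q) {f : ι → κ}
    (hf : Function.Injective f) : IsCQ (rename f q) := by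
  rcases h with h | ⟨l, i, j, h1, h2, h3⟩
  · exact Or.inl ((totalDegree_rename_le f q).trans h)
  · refine Or.inr ⟨rename f l, f i, f j, (totalDegree_rename_le f l).trans h1,
      fun h => h2 (hf h), ?_⟩
    rcases h3 with h3 | h3
    · left
      rw [h3, map_sub, map_pow, map_add, rename_X, rename_X]
    · right
      rw [h3, map_sub, map_pow, map_sub, rename_X, rename_X]

theorem ren {ι κ : Type} {S : Set (ι → ℝ)} (h : CS S) {f : ι → κ}
    (hf : Function.Injective f) : CS {z : κ → ℝ | (fun i => z (f i)) ∈ S} := by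
  obtain ⟨m, q, hq, rfl⟩ := h
  refine ⟨m, fun i => rename f (q i), fun i => iscq_ren (hq i) hf, ?_⟩
  ext z
  simp only [Set.mem_ofPred_eq, aeval_rename]
  exact Iff.rfl

theorem of_aff {ι : Type} {q : MvPolynomial ι ℚ} (h : q.totalDegree ≤ 1) :
    CS {z : ι → ℝ | 0 ≤ (aeval z q : ℝ)} := by
  refine ⟨1, fun _ => q, fun _ => Or.inl h, ?_⟩
  ext z
  simp only [Set.mem_ofPred_eq]
  exact ⟨fun h _ => h, fun h => h 0⟩

/-- Integrals of polynomials over the last coordinate are polynomials in the base point. -/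
theorem mom_aux {τ : Type} (φ ψ : MvPolynomial τ ℚ) (f : MvPolynomial (τ ⊕ Unit) ℚ) :
    ∀ n : ℕ, ∃ F : MvPolynomial τ ℚ, ∀ z : τ → ℝ,
      ∫ w in (aeval z φ : ℝ)..(aeval z ψ), w ^ n * aeval (Sum.elim z fun _ => w) f =
        (aeval z F : ℝ) := by
  induction f using MvPolynomial.induction_on with
  | C a =>
    intro n
    refine ⟨C (a / (n + 1)) * (ψ ^ (n + 1) - φ ^ (n + 1)), fun z => ?_⟩
    have h1 : ∀ w : ℝ, w ^ n * (aeval (Sum.elim z fun _ => w : τ ⊕ Unit → ℝ) (C a) : ℝ) =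
        (a : ℝ) * w ^ n := by
      intro w
      rw [aeval_C, mul_comm]
      rfl
    simp only [h1]
    rw [intervalIntegral.integral_const_mul, integral_pow]
    rw [map_mul, map_sub, map_pow, map_pow, aeval_C]
    have h2 : (algebraMap ℚ ℝ) (a / (n + 1)) = (a : ℝ) / (n + 1) := by
      rw [eq_ratCast]
      push_cast
      ring
    rw [h2]
    ring
  | add p q hp hq =>
    intro n
    obtain ⟨F, hF⟩ := hp n
    obtain ⟨G, hG⟩ := hq n
    refine ⟨F + G, fun z => ?_⟩
    have hc : ∀ r : MvPolynomial (τ ⊕ Unit) ℚ, Continuous fun w : ℝ =>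
        w ^ n * (aeval (Sum.elim z fun _ => w : τ ⊕ Unit → ℝ) r : ℝ) := fun r =>
      (continuous_id.pow n).mul ((cont_aeval r).comp (cont_elim z))
    rw [map_add, ← hF z, ← hG z, ← intervalIntegral.integral_add
      ((hc p).intervalIntegrable _ _) ((hc q).intervalIntegrable _ _)]
    simp only [map_add, mul_add]
  | mul_X p i hp =>
    intro n
    cases i with
    | inl i =>
      obtain ⟨F, hF⟩ := hp n
      refine ⟨F * X i, fun z => ?_⟩
      have h1 : ∀ w : ℝ, w ^ n *
          (aeval (Sum.elim z fun _ => w : τ ⊕ Unit → ℝ) (p * X (Sum.inl i)) : ℝ) =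
          (w ^ n * (aeval (Sum.elim z fun _ => w : τ ⊕ Unit → ℝ) p : ℝ)) * z i := by
        intro w
        rw [map_mul, aeval_X, Sum.elim_inl]
        ring
      simp only [h1]
      rw [intervalIntegral.integral_mul_const, hF z, map_mul, aeval_X]
    | inr i =>
      obtain ⟨F, hF⟩ := hp (n + 1)
      refine ⟨F, fun z => ?_⟩
      rw [← hF z]
      have h1 : ∀ w : ℝ, w ^ n *
          (aeval (Sum.elim z fun _ => w : τ ⊕ Unit → ℝ) (p * X (Sum.inr i)) : ℝ) =
          w ^ (n + 1) * (aeval (Sum.elim z fun _ => w : τ ⊕ Unit → ℝ) p : ℝ) := by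
        intro w
        rw [map_mul, aeval_X, Sum.elim_inr]
        ring
      simp only [h1]

end Slab85

open Slab85

theorem slab_cpt {τ : Type} [Fintype τ] {Z : Set (τ → ℝ)} (hZ : IsCompact Z)
    (φ ψ : MvPolynomial τ ℚ) : IsCompact (slab Z φ ψ) := by
  refine Metric.isCompact_of_isClosed_isBounded (closed_slab hZ φ ψ) ?_
  obtain ⟨A, hA⟩ := hZ.exists_bound_of_continuousOn (f := fun z : τ → ℝ => z)
    continuous_id.continuousOn
  obtain ⟨B, hB⟩ := hZ.exists_bound_of_continuousOn (cont_aeval φ).continuousOn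
  obtain ⟨B', hB'⟩ := hZ.exists_bound_of_continuousOn (cont_aeval ψ).continuousOn
  rw [isBounded_iff_forall_norm_le]
  refine ⟨max |A| (max |B| |B'|), fun z hz => ?_⟩
  have h0 : 0 ≤ max |A| (max |B| |B'|) := (abs_nonneg A).trans (le_max_left _ _)
  rw [pi_norm_le_iff_of_nonneg h0]
  obtain ⟨h1, h2, h3⟩ := hz
  intro i
  cases i with
  | inl i =>
    have h4 : ‖z (Sum.inl i)‖ ≤ ‖fun i => z (Sum.inl i)‖ :=
      norm_le_pi_norm (fun i => z (Sum.inl i)) i
    exact h4.trans ((hA _ h1).trans ((le_abs_self A).trans (le_max_left _ _)))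
  | inr i =>
    have h5 := hB _ h1
    have h6 := hB' _ h1
    rw [Real.norm_eq_abs] at h5 h6 ⊢
    rw [abs_le] at h5 h6 ⊢
    have h7 : |B| ≤ max |A| (max |B| |B'|) := (le_max_left _ _).trans (le_max_right _ _)
    have h8 : |B'| ≤ max |A| (max |B| |B'|) := (le_max_right _ _).trans (le_max_right _ _)
    have h9 := le_abs_self B
    have h10 := le_abs_self B'
    constructor
    · linarith [h5.1]
    · linarith [h6.2]

theorem slab_int {τ : Type} [Fintype τ] {Z : Set (τ → ℝ)} (hZ : IsCompact Z)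
    (φ ψ : MvPolynomial τ ℚ) (h : ∀ z ∈ Z, (aeval z φ : ℝ) ≤ aeval z ψ)
    (f : (τ ⊕ Unit → ℝ) → ℝ) (hf : Continuous f) :
    ∫ z in slab Z φ ψ, f z =
      ∫ z in Z, ∫ w in (aeval z φ : ℝ)..(aeval z ψ), f (Sum.elim z fun _ => w) := by
  have hc := slab_cpt hZ φ ψ
  rw [int_fib hc.isClosed.measurableSet f (hf.continuousOn.integrableOn_compact hc),
    ← integral_indicator hZ.isClosed.measurableSet]
  refine integral_congr_ae (Filter.Eventually.of_forall fun y => ?_)
  show ∫ b in fib (slab Z φ ψ) y, f (Sum.elim y b) = _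
  by_cases hy : y ∈ Z
  · rw [Set.indicator_of_mem hy]
    have h1 : MeasurableSet (fib (slab Z φ ψ) y) :=
      Pool.Agent.QVol.meas_fib hc.isClosed.measurableSet y
    rw [← integral_indicator h1, Pool.Agent.QVol.int_unit,
      intervalIntegral.integral_of_le (h y hy), ← integral_Icc_eq_integral_Ioc,
      ← integral_indicator measurableSet_Icc]
    refine integral_congr_ae (Filter.Eventually.of_forall fun w => ?_)
    show (fib (slab Z φ ψ) y).indicator (fun b => f (Sum.elim y b)) (fun _ => w) =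
      (Set.Icc (aeval y φ : ℝ) (aeval y ψ)).indicator (fun w => f (Sum.elim y fun _ => w)) w
    by_cases hw : w ∈ Set.Icc (aeval y φ : ℝ) (aeval y ψ)
    · rw [Set.indicator_of_mem hw, Set.indicator_of_mem]
      exact ⟨hy, hw.1, hw.2⟩
    · rw [Set.indicator_of_notMem hw, Set.indicator_of_notMem]
      rintro ⟨_, h2, h3⟩
      exact hw ⟨h2, h3⟩
  · rw [Set.indicator_of_notMem hy]
    have h1 : fib (slab Z φ ψ) y = ∅ := by
      ext b
      simp only [Set.mem_empty_iff_false, iff_false]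
      rintro ⟨h2, _⟩
      exact hy h2
    rw [h1, Measure.restrict_empty, integral_zero_measure]

theorem slab_nice {τ : Type} [Fintype τ] {Z : Set (τ → ℝ)} (hZ : Nice Z)
    (φ ψ : MvPolynomial τ ℚ) (h : ∀ z ∈ Z, (aeval z φ : ℝ) ≤ aeval z ψ)
    (h1 : CS {z : τ ⊕ Unit → ℝ | (aeval (fun i => z (Sum.inl i)) φ : ℝ) ≤ z (Sum.inr ())})
    (h2 : CS {z : τ ⊕ Unit → ℝ | z (Sum.inr ()) ≤ (aeval (fun i => z (Sum.inl i)) ψ : ℝ)}) :
    Nice (slab Z φ ψ) := by
  refine ⟨?_, slab_cpt hZ.cpt φ ψ, ?_⟩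
  · exact inter (ren hZ.cs Sum.inl_injective) (inter h1 h2)
  · intro f
    obtain ⟨F, hF⟩ := mom_aux φ ψ f 0
    obtain ⟨q, hq⟩ := hZ.mom F
    refine ⟨q, ?_⟩
    rw [slab_int hZ.cpt φ ψ h _ (cont_aeval f), ← hq]
    refine integral_congr_ae (Filter.Eventually.of_forall fun z => ?_)
    show ∫ w in (aeval z φ : ℝ)..(aeval z ψ), (aeval (Sum.elim z fun _ => w) f : ℝ) =
      (aeval z F : ℝ)
    rw [← hF z]
    simp only [pow_zero, one_mul]

theorem cs_ge {τ : Type} {φ : MvPolynomial τ ℚ} (hφ : φ.totalDegree ≤ 1) :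
    CS {z : τ ⊕ Unit → ℝ | (aeval (fun i => z (Sum.inl i)) φ : ℝ) ≤ z (Sum.inr ())} := by
  have h1 := of_aff (q := (X (Sum.inr ()) - rename Sum.inl φ : MvPolynomial (τ ⊕ Unit) ℚ)) (by
    refine (totalDegree_sub _ _).trans (max_le ?_ ((totalDegree_rename_le _ _).trans hφ))
    rw [totalDegree_X])
  have h2 : {z : τ ⊕ Unit → ℝ | (aeval (fun i => z (Sum.inl i)) φ : ℝ) ≤ z (Sum.inr ())} =
      {z : τ ⊕ Unit → ℝ | 0 ≤
        (aeval z (X (Sum.inr ()) - rename Sum.inl φ : MvPolynomial (τ ⊕ Unit) ℚ) : ℝ)} := by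
    ext z
    simp only [Set.mem_ofPred_eq, map_sub, aeval_X, aeval_rename, sub_nonneg]
    exact Iff.rfl
  rw [h2]
  exact h1

theorem cs_le {τ : Type} {ψ : MvPolynomial τ ℚ} (hψ : ψ.totalDegree ≤ 1) :
    CS {z : τ ⊕ Unit → ℝ | z (Sum.inr ()) ≤ (aeval (fun i => z (Sum.inl i)) ψ : ℝ)} := by
  have h1 := of_aff (q := (rename Sum.inl ψ - X (Sum.inr ()) : MvPolynomial (τ ⊕ Unit) ℚ)) (by
    refine (totalDegree_sub _ _).trans (max_le ((totalDegree_rename_le _ _).trans hψ) ?_)
    rw [totalDegree_X])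
  have h2 : {z : τ ⊕ Unit → ℝ | z (Sum.inr ()) ≤ (aeval (fun i => z (Sum.inl i)) ψ : ℝ)} =
      {z : τ ⊕ Unit → ℝ | 0 ≤
        (aeval z (rename Sum.inl ψ - X (Sum.inr ()) : MvPolynomial (τ ⊕ Unit) ℚ) : ℝ)} := by
    ext z
    simp only [Set.mem_ofPred_eq, map_sub, aeval_X, aeval_rename, sub_nonneg]
    exact Iff.rfl
  rw [h2]
  exact h1

theorem slab_vol {τ : Type} [Fintype τ] {Z : Set (τ → ℝ)} (hZ : IsCompact Z)
    (φ ψ : MvPolynomial τ ℚ) (h : ∀ z ∈ Z, (aeval z φ : ℝ) ≤ aeval z ψ) (B : ℝ)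
    (hB : ∀ z ∈ Z, (aeval z ψ : ℝ) - aeval z φ ≤ B) :
    volume.real (slab Z φ ψ) ≤ B * volume.real Z := by
  have h1 := slab_int hZ φ ψ h (fun _ => 1) continuous_const
  rw [setIntegral_const, smul_eq_mul, mul_one] at h1
  rw [h1]
  have h2 : ∀ z : τ → ℝ, ∫ _ in (aeval z φ : ℝ)..(aeval z ψ), (1 : ℝ) =
      (aeval z ψ : ℝ) - aeval z φ := by
    intro z
    rw [intervalIntegral.integral_const, smul_eq_mul, mul_one]
  simp only [h2]
  have h3 : ∫ z in Z, ((aeval z ψ : ℝ) - aeval z φ) ≤ ∫ _ in Z, B := by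
    refine setIntegral_mono_on ?_ ?_ hZ.isClosed.measurableSet hB
    · exact ((cont_aeval ψ).sub (cont_aeval φ)).continuousOn.integrableOn_compact hZ
    · exact (continuous_const (y := B)).continuousOn.integrableOn_compact hZ
  refine h3.trans (le_of_eq ?_)
  rw [setIntegral_const, smul_eq_mul, mul_comm]

end Pool.Agent.CQ68
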