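import Pool.Agent.W_2cf66e_h59.CA59

/-!
# CQ: convex quadratic inequalities as 2 x 2 linear matrix inequalities (helper68)
-/

set_option autoImplicit false

noncomputable section

open MeasureTheory MvPolynomial

namespace Pool.Agent.CQ68

theorem psd_two (a b c : ℝ) : (!![a, b; b, c] : Matrix (Fin 2) (Fin 2) ℝ).PosSemidef ↔
    ∀ x y : ℝ, 0 ≤ a * x ^ 2 + 2 * b * x * y + c * y ^ 2 := by
  rw [Matrix.posSemidef_iff_dotProduct_mulVec]
  have e : ∀ v : Fin 2 → ℝ, star v ⬝ᵥ (!![a, b; b, c].mulVec v) =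
      a * (v 0) ^ 2 + 2 * b * v 0 * v 1 + c * (v 1) ^ 2 := by
    intro v
    simp [Matrix.mulVec, dotProduct, Fin.sum_univ_two]
    ring
  constructor
  · rintro ⟨_, h⟩ x y
    have := h ![x, y]
    rw [e] at this
    simpa using this
  · intro h
    refine ⟨?_, fun v => ?_⟩
    · ext i j
      fin_cases i <;> fin_cases j <;> simp [Matrix.conjTranspose]
    · rw [e]
      exact h _ _

theorem psd_sq (s l : ℝ) : (!![1, s; s, l] : Matrix (Fin 2) (Fin 2) ℝ).PosSemidef ↔
    s ^ 2 ≤ l := by
  rw [psd_two]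
  constructor
  · intro h
    have := h s (-1)
    nlinarith
  · intro h x y
    nlinarith [sq_nonneg (x + s * y), mul_nonneg (sub_nonneg.2 h) (sq_nonneg y)]

/-- A polynomial of degree at most one is an affine function. -/
theorem aff_form {N : ℕ} {q : MvPolynomial (Fin N) ℚ} (h : q.totalDegree ≤ 1) :
    ∃ (a : ℚ) (b : Fin N → ℚ), ∀ z : Fin N → ℝ, (aeval z q : ℝ) = a + ∑ k, z k * b k := by
  have key : ∀ T : Finset (Fin N →₀ ℕ), (∀ d ∈ T, d.degree ≤ 1) → ∀ c : (Fin N →₀ ℕ) → ℚ,
      ∃ (a : ℚ) (b : Fin N → ℚ), ∀ z : Fin N → ℝ,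
        (∑ d ∈ T, (c d : ℝ) * ∏ i ∈ d.support, z i ^ d i) = a + ∑ k, z k * b k := by
    intro T
    classical
    induction T using Finset.induction_on with
    | empty => exact fun _ _ => ⟨0, 0, fun z => by simp⟩
    | insert d T hd ih =>
      intro hT c
      obtain ⟨a, b, hab⟩ := ih (fun d' h' => hT d' (Finset.mem_insert_of_mem h')) c
      rcases Nat.le_one_iff_eq_zero_or_eq_one.1 (hT d (Finset.mem_insert_self _ _)) with h0 | h1
      · have h2 : d = 0 := Finsupp.degree_eq_zero_iff d |>.1 h0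
        refine ⟨a + c d, b, fun z => ?_⟩
        rw [Finset.sum_insert hd, hab, h2]
        push_cast
        simp
        ring
      · have h2 : d ∈ Set.range (fun i : Fin N => Finsupp.single i 1) := by
          rw [Finsupp.range_single_one]
          exact h1
        obtain ⟨i, hi⟩ := h2
        refine ⟨a, fun k => b k + if k = i then c d else 0, fun z => ?_⟩
        rw [Finset.sum_insert hd, hab]
        have e1 : ∏ i ∈ d.support, z i ^ d i = z i := by
          rw [← hi]
          simp only [Finsupp.support_single i one_ne_zero, Finset.prod_singleton,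
            Finsupp.single_eq_same, pow_one]
        have e2 : ∑ k, z k * (((b k + if k = i then c d else 0 : ℚ)) : ℝ) =
            (∑ k, z k * (b k : ℝ)) + z i * c d := by
          have e3 : ∀ k, z k * (((b k + if k = i then c d else 0 : ℚ)) : ℝ) =
              z k * (b k : ℝ) + if k = i then z i * (c d : ℝ) else 0 := by
            intro k
            by_cases hk : k = i
            · subst hk
              simp only [if_true]
              push_cast
              ring
            · simp only [if_neg hk]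
              push_cast
              ring
          rw [Finset.sum_congr rfl fun k _ => e3 k, Finset.sum_add_distrib,
            Finset.sum_ite_eq' Finset.univ i, if_pos (Finset.mem_univ i)]
        rw [e1, e2]
        ring
  obtain ⟨a, b, hab⟩ := key q.support (fun d hd => (le_totalDegree hd).trans h) fun d => coeff d q
  refine ⟨a, b, fun z => ?_⟩
  rw [← hab z, aeval_def, eval₂_eq]
  simp

/-- One inequality of the required form is one 2 x 2 linear matrix inequality. -/
theorem cq_lmi {N : ℕ} (q : MvPolynomial (Fin N) ℚ) (h : IsCQ q) :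
    ∃ (A : Matrix (Fin 2) (Fin 2) ℚ) (B : Fin N → Matrix (Fin 2) (Fin 2) ℚ), A.IsSymm ∧
      (∀ k, (B k).IsSymm) ∧ ∀ z : Fin N → ℝ, 0 ≤ (aeval z q : ℝ) ↔
        (A.map (Rat.cast : ℚ → ℝ) + ∑ k, z k • (B k).map (Rat.cast : ℚ → ℝ)).PosSemidef := by
  have key : ∀ (s l : MvPolynomial (Fin N) ℚ), s.totalDegree ≤ 1 → l.totalDegree ≤ 1 →
      ∃ (A : Matrix (Fin 2) (Fin 2) ℚ) (B : Fin N → Matrix (Fin 2) (Fin 2) ℚ), A.IsSymm ∧
      (∀ k, (B k).IsSymm) ∧ ∀ z : Fin N → ℝ, (aeval z s : ℝ) ^ 2 ≤ aeval z l ↔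
        (A.map (Rat.cast : ℚ → ℝ) + ∑ k, z k • (B k).map (Rat.cast : ℚ → ℝ)).PosSemidef := by
    intro s l hs hl
    obtain ⟨a, b, hab⟩ := aff_form hs
    obtain ⟨c, d, hcd⟩ := aff_form hl
    refine ⟨!![1, a; a, c], fun k => !![0, b k; b k, d k], ?_, fun k => ?_, fun z => ?_⟩
    · ext i j
      fin_cases i <;> fin_cases j <;> simp
    · ext i j
      fin_cases i <;> fin_cases j <;> simp
    · have e : ((!![1, a; a, c] : Matrix (Fin 2) (Fin 2) ℚ).map (Rat.cast : ℚ → ℝ) +
          ∑ k, z k • (!![0, b k; b k, d k] : Matrix (Fin 2) (Fin 2) ℚ).map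
            (Rat.cast : ℚ → ℝ)) = !![1, (aeval z s : ℝ); (aeval z s : ℝ), aeval z l] := by
        ext i j
        fin_cases i <;> fin_cases j <;>
          simp [Matrix.sum_apply, hab, hcd]
      rw [e, psd_sq]
  rcases h with h | ⟨l, i, j, h1, _, h3⟩
  · obtain ⟨A, B, hA, hB, hz⟩ := key 0 q (by simp) h
    refine ⟨A, B, hA, hB, fun z => ?_⟩
    rw [← hz z]
    simp
  · rcases h3 with h3 | h3
    · have hs : (X i + X j : MvPolynomial (Fin N) ℚ).totalDegree ≤ 1 :=
        (totalDegree_add _ _).trans (max_le (by rw [totalDegree_X]) (by rw [totalDegree_X]))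
      obtain ⟨A, B, hA, hB, hz⟩ := key (X i + X j) l hs h1
      refine ⟨A, B, hA, hB, fun z => ?_⟩
      rw [← hz z, h3]
      simp only [map_sub, map_pow, sub_nonneg]
    · have hs : (X i - X j : MvPolynomial (Fin N) ℚ).totalDegree ≤ 1 :=
        (totalDegree_sub _ _).trans (max_le (by rw [totalDegree_X]) (by rw [totalDegree_X]))
      obtain ⟨A, B, hA, hB, hz⟩ := key (X i - X j) l hs h1
      refine ⟨A, B, hA, hB, fun z => ?_⟩
      rw [← hz z, h3]
      simp only [map_sub, map_pow, sub_nonneg]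

end Pool.Agent.CQ68
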