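import Mathlib

/-!
# MP_2cf66e_nt (periods), convex quadratic volumes: definitions used in the statement (helper68)
-/

set_option autoImplicit false

noncomputable section

open MvPolynomial

namespace Pool.Agent.CQ68

/-- `q` is an affine polynomial, or an affine polynomial minus the square of the sum or of the
difference of two distinct coordinates. -/
def IsCQ {ι : Type} (q : MvPolynomial ι ℚ) : Prop :=
  q.totalDegree ≤ 1 ∨ ∃ (l : MvPolynomial ι ℚ) (i j : ι), l.totalDegree ≤ 1 ∧ i ≠ j ∧
    (q = l - (X i + X j) ^ 2 ∨ q = l - (X i - X j) ^ 2)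

end Pool.Agent.CQ68
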