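import Pool.Agent.W_2cf66e_h68.AllW35

/-!
# Convex quadratic volumes: the cube, all weights (helper35)
-/

set_option autoImplicit false

noncomputable section

open MeasureTheory MvPolynomial

namespace Pool.Agent.CQ68

open Pool.Agent.QVol (box rbox QG_mem QG_meas box_eq_rbox cont_aeval rat_int')

namespace S35

theorem eval_cast {ι : Type} (l : ι → ℚ) (p : MvPolynomial ι ℚ) :
    ((eval l p : ℚ) : ℝ) = aeval (fun i => (l i : ℝ)) p := by
  have h := MvPolynomial.aeval_algebraMap_apply ℝ l p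
  have h2 : (aeval l p : ℚ) = eval l p := by rw [MvPolynomial.aeval_eq_eval]
  rw [h2] at h
  exact h.symm

/-- One cube of the grid. -/
theorem one_cube {ι : Type} [Fintype ι] (p H : MvPolynomial ι ℚ) (m : ℕ) (L : ℚ) (Λ : ℝ)
    (hΛ : 0 ≤ Λ)
    (hL : ∀ (y z : ι → ℝ) (δ : ℝ), 0 ≤ δ → y ∈ box ι → z ∈ box ι →
      (∀ i, |y i - z i| ≤ δ) → |(aeval y p : ℝ) - aeval z p| ≤ L * δ)
    (hA : ∀ (l u : ι → ℚ) (d : ℚ), 0 < d → d ≤ 1 →
      (∀ i, -1 ≤ l i ∧ l i ≤ u i ∧ u i ≤ l i + d ∧ u i ≤ 1) → |eval l p| ≤ L * d →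
      ∃ (c : ℚ) (y : ℝ), 0 ≤ y ∧ CBlock y (Λ * d ^ 2 * volume.real (rbox l u)) ∧
        ∫ y in rbox l u, aeval y H * max (aeval y p) 0 ^ (m + 2) = c - y)
    (l u : ι → ℚ) (d : ℚ) (hd0 : 0 < d) (hd1 : d ≤ 1)
    (hlu : ∀ i, -1 ≤ l i ∧ l i ≤ u i ∧ u i ≤ l i + d ∧ u i ≤ 1) :
    ∃ (c : ℚ) (y : ℝ), 0 ≤ y ∧ CBlock y (Λ * d ^ 2 * volume.real (rbox l u)) ∧
      ∫ y in rbox l u, aeval y H * max (aeval y p) 0 ^ (m + 2) = c - y := by
  have hβ : (0 : ℝ) ≤ Λ * d ^ 2 * volume.real (rbox l u) := by positivity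
  have hmem : ∀ y ∈ rbox l u, y ∈ box ι := by
    intro y hy
    rw [box_eq_rbox, QG_mem]
    rw [QG_mem] at hy
    intro i
    have e1 : (-1 : ℝ) ≤ l i := by exact_mod_cast (hlu i).1
    have e2 : (u i : ℝ) ≤ 1 := by exact_mod_cast (hlu i).2.2.2
    push_cast
    exact ⟨e1.trans (hy i).1, (hy i).2.trans e2⟩
  by_cases hpos : ∀ y ∈ rbox l u, 0 < (aeval y p : ℝ)
  · obtain ⟨q, hq⟩ := rat_int' H p (m + 2) l u
    refine ⟨q, 0, le_rfl, CBlock.zero.mono hβ, ?_⟩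
    rw [sub_zero, ← hq]
    refine setIntegral_congr_fun measurableSet_Icc fun y hy => ?_
    rw [max_eq_left (hpos y hy).le]
  by_cases hneg : ∀ y ∈ rbox l u, (aeval y p : ℝ) ≤ 0
  · refine ⟨0, 0, le_rfl, CBlock.zero.mono hβ, ?_⟩
    rw [Rat.cast_zero, sub_zero]
    refine setIntegral_eq_zero_of_forall_eq_zero fun y hy => ?_
    rw [max_eq_right (hneg y hy), zero_pow (by omega), mul_zero]
  push Not at hpos hneg
  obtain ⟨y0, hy0, hp0⟩ := hpos
  obtain ⟨y1, hy1, hp1⟩ := hneg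
  refine hA l u d hd0 hd1 hlu ?_
  have hl0 : (fun i => (l i : ℝ)) ∈ rbox l u := by
    rw [QG_mem]
    intro i
    have : (l i : ℝ) ≤ u i := by exact_mod_cast (hlu i).2.1
    exact ⟨le_rfl, this⟩
  have hdR : (0 : ℝ) ≤ d := by exact_mod_cast hd0.le
  have hdist : ∀ y ∈ rbox l u, ∀ i, |(l i : ℝ) - y i| ≤ d := by
    intro y hy i
    rw [QG_mem] at hy
    have e2 : (u i : ℝ) ≤ l i + d := by exact_mod_cast (hlu i).2.2.1
    have e3 := (hy i).1
    have e4 := (hy i).2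
    rw [abs_le]
    constructor <;> linarith
  have f0 := abs_le.1 (hL _ y0 d hdR (hmem _ hl0) (hmem _ hy0) (hdist y0 hy0))
  have f1 := abs_le.1 (hL _ y1 d hdR (hmem _ hl0) (hmem _ hy1) (hdist y1 hy1))
  rw [← eval_cast] at f0 f1
  have g1 : ((eval l p : ℚ) : ℝ) ≤ L * d := by linarith [f0.2]
  have g2 : -((L : ℝ) * d) ≤ ((eval l p : ℚ) : ℝ) := by linarith [f1.1]
  rw [abs_le]
  constructor
  · exact_mod_cast g2
  · exact_mod_cast g1

end S35

/-- The cube, all weights: up to a rational number, minus a block of size `O(1/N^2)`. -/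
theorem box_all {ι : Type} [Fintype ι] (p H : MvPolynomial ι ℚ) (m : ℕ) (hp : Gad p m) :
    ∃ Λ : ℝ, 0 ≤ Λ ∧ ∀ N : ℕ, 2 ≤ N → ∃ (c : ℚ) (y : ℝ), 0 ≤ y ∧ CBlock y (Λ / N ^ 2) ∧
      ∫ y in box ι, aeval y H * max (aeval y p) 0 ^ (m + 2) = c - y := by
  classical
  obtain ⟨L, hL0, hL⟩ := S35.lip p
  obtain ⟨Λ, hΛ, hA⟩ := all_weights p H m hp L
  refine ⟨Λ * 4 * volume.real (box ι), by positivity, fun N hN => ?_⟩
  have hN0 : 0 < N := by omega
  have hNQ : (0 : ℚ) < N := by exact_mod_cast hN0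
  have hd0 : (0 : ℚ) < 2 / N := by positivity
  have hd1 : (2 / N : ℚ) ≤ 1 := by
    rw [div_le_one hNQ]
    exact_mod_cast hN
  have hcut : ∀ (k : ι → Fin N) (i : ι), -1 ≤ S35.cut N (k i) ∧
      S35.cut N (k i) ≤ S35.cut N (k i + 1) ∧
      S35.cut N (k i + 1) ≤ S35.cut N (k i) + 2 / N ∧ S35.cut N (k i + 1) ≤ 1 := by
    intro k i
    refine ⟨?_, ?_, (S35.cut_succ N _).le, ?_⟩
    · have h := S35.cut_mono N (Nat.zero_le (k i : ℕ))
      beta_reduce at h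
      have h' : S35.cut N 0 ≤ S35.cut N (k i) := by exact_mod_cast h
      rwa [S35.cut_zero] at h'
    · have h := S35.cut_mono N (Nat.le_add_right (k i : ℕ) 1)
      beta_reduce at h
      exact_mod_cast h
    · have h := S35.cut_mono N (show (k i : ℕ) + 1 ≤ N from (k i).2)
      beta_reduce at h
      have h' : S35.cut N (k i + 1) ≤ S35.cut N N := by exact_mod_cast h
      rwa [S35.cut_last N hN0] at h'
  have hone := fun k : ι → Fin N => S35.one_cube p H m L Λ hΛ hL hA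
    (fun i => S35.cut N (k i)) (fun i => S35.cut N (k i + 1)) (2 / N) hd0 hd1 (hcut k)
  choose c y hy hb hc using hone
  refine ⟨∑ k, c k, ∑ k, y k, Finset.sum_nonneg fun k _ => hy k, ?_, ?_⟩
  · refine (CBlock.sum Finset.univ y _ (fun k _ => hb k)).mono (le_of_eq ?_)
    rw [← Finset.mul_sum, S35.grid_vol N hN0]
    push_cast
    ring
  · have hcont : Continuous fun y : ι → ℝ =>
        (aeval y H : ℝ) * max (aeval y p) 0 ^ (m + 2) :=
      (cont_aeval H).mul (((cont_aeval p).max continuous_const).pow _)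
    rw [S35.grid N hN0 _ hcont, Finset.sum_congr rfl fun k _ => hc k, Finset.sum_sub_distrib]
    push_cast
    rfl

end Pool.Agent.CQ68
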